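import Pool.Agent.H412R3.VTC.Trans

set_option autoImplicit false

/-! Binary digits of sums and products of natural numbers. -/

namespace Pool.Agent.H412R3.VTC

open Classical

/-- carry -/
def carN (A B : ℕ → Prop) (i : ℕ) : Prop :=
  ∃ k, k < i ∧ A k ∧ B k ∧ ∀ j, k < j → j < i → A j ∨ B j

/-- sum digit -/
def sumN (A B : ℕ → Prop) (i : ℕ) : Prop := Xor (Xor (A i) (B i)) (carN A B i)

/-- the digits of a number -/
def dig (a : ℕ) : ℕ → Prop := fun j => a.testBit j = true

theorem carN_succ (A B : ℕ → Prop) (i : ℕ) :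
    carN A B (i + 1) ↔ (A i ∧ B i) ∨ ((A i ∨ B i) ∧ carN A B i) := by
  constructor
  · rintro ⟨k, h1, h2, h3, h4⟩
    by_cases hk : k = i
    · subst hk; exact Or.inl ⟨h2, h3⟩
    · exact Or.inr ⟨h4 i (by omega) (by omega), k, by omega, h2, h3,
        fun j hj hj2 => h4 j hj (by omega)⟩
  · rintro (⟨h1, h2⟩ | ⟨h0, k, h1, h2, h3, h4⟩)
    · exact ⟨i, by omega, h1, h2, fun j hj hj2 => by omega⟩
    · refine ⟨k, by omega, h2, h3, fun j hj hj2 => ?_⟩
      by_cases hji : j = i
      · subst hji; exact h0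
      · exact h4 j hj (by omega)

theorem mod_succ (a i : ℕ) : a % 2 ^ (i + 1) = a % 2 ^ i + 2 ^ i * (a.testBit i).toNat := by
  rw [Nat.mod_pow_succ, Nat.toNat_testBit]

theorem carN_iff (a b i : ℕ) : carN (dig a) (dig b) i ↔ 2 ^ i ≤ a % 2 ^ i + b % 2 ^ i := by
  induction i with
  | zero => simp [carN, Nat.mod_one]
  | succ i ih =>
    rw [carN_succ, ih, mod_succ, mod_succ]
    have h1 : a % 2 ^ i < 2 ^ i := Nat.mod_lt _ (by positivity)
    have h2 : b % 2 ^ i < 2 ^ i := Nat.mod_lt _ (by positivity)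
    unfold dig
    rw [pow_succ]
    cases h3 : a.testBit i <;> cases h4 : b.testBit i <;> simp <;> omega

theorem testBit_iff (a i : ℕ) : a.testBit i = true ↔ a / 2 ^ i % 2 = 1 := by
  rw [Nat.testBit_eq_decide_div_mod_eq]
  simp

theorem sumN_iff (a b i : ℕ) : sumN (dig a) (dig b) i ↔ (a + b).testBit i = true := by
  unfold sumN
  rw [carN_iff]
  unfold dig
  rw [testBit_iff, testBit_iff, testBit_iff, Nat.add_div (by positivity : 0 < 2 ^ i)]
  unfold Xor
  split_ifs with h
  · simp only [h, not_true_eq_false, and_false, true_and, false_or]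
    omega
  · simp only [h, not_false_eq_true, and_true, false_and, or_false]
    omega

theorem dig_shift (Y i : ℕ) : dig (2 ^ i * Y) = fun j => ∃ k, k + i = j ∧ Y.testBit k = true := by
  funext j
  refine propext ?_
  unfold dig
  rw [Nat.testBit_two_pow_mul]
  simp only [Bool.and_eq_true, decide_eq_true_eq]
  constructor
  · rintro ⟨h1, h2⟩
    exact ⟨j - i, by omega, h2⟩
  · rintro ⟨k, rfl, h2⟩
    exact ⟨by omega, by simpa using h2⟩

/-- `W` is the table for `X * Y = Z` -/
def TabN (X Y W Z : ℕ) : Prop :=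
  (∀ j, ¬ W.testBit (prN 0 j) = true) ∧
  (∀ i, i < X.size → ∀ j, (W.testBit (prN (i + 1) j) = true ↔
    (X.testBit i = true ∧ sumN (fun j => W.testBit (prN i j) = true)
      (fun j => ∃ k, k + i = j ∧ Y.testBit k = true) j) ∨
    (¬ X.testBit i = true ∧ W.testBit (prN i j) = true))) ∧
  ∀ j, (Z.testBit j = true ↔ W.testBit (prN X.size j) = true)

theorem mod_size (X : ℕ) : X % 2 ^ X.size = X := Nat.mod_eq_of_lt (Nat.lt_size_self X)

theorem prod_succ (X Y i : ℕ) (j : ℕ) :
    dig (X % 2 ^ (i + 1) * Y) j ↔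
    (X.testBit i = true ∧ sumN (dig (X % 2 ^ i * Y))
      (fun j => ∃ k, k + i = j ∧ Y.testBit k = true) j) ∨
    (¬ X.testBit i = true ∧ dig (X % 2 ^ i * Y) j) := by
  rw [mod_succ, ← dig_shift]
  cases h : X.testBit i
  · simp
  · simp only [Bool.toNat_true, mul_one, not_true_eq_false, false_and, or_false, true_and]
    rw [sumN_iff, add_mul]
    rfl

theorem TabN.rows {X Y W Z : ℕ} (h : TabN X Y W Z) :
    ∀ i, i ≤ X.size → (fun j => W.testBit (prN i j) = true) = dig (X % 2 ^ i * Y) := by
  intro i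
  induction i with
  | zero =>
    intro _
    funext j
    refine propext ⟨fun h1 => absurd h1 (h.1 j), fun h1 => ?_⟩
    simp [dig, Nat.mod_one] at h1
  | succ i ih =>
    intro hi
    funext j
    refine propext ?_
    rw [h.2.1 i (by omega) j, prod_succ, ih (by omega)]
    have h2 : (W.testBit (prN i j) = true) = dig (X % 2 ^ i * Y) j := congrFun (ih (by omega)) j
    rw [h2]

theorem TabN.eq {X Y W Z : ℕ} (h : TabN X Y W Z) : Z = X * Y := by
  refine Nat.eq_of_testBit_eq (fun j => ?_)
  rw [Bool.eq_iff_iff, h.2.2 j]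
  have := congrFun (h.rows X.size le_rfl) j
  simp only [mod_size] at this
  rw [this]
  rfl

theorem prN_inj {x y x' y' : ℕ} (h : prN x y = prN x' y') : x = x' ∧ y = y' := by
  unfold prN at h
  have key : ∀ a b c d : ℕ, (a + b) * ((a + b) + 1) + (1 + 1) * b =
      (c + d) * ((c + d) + 1) + (1 + 1) * d → ¬ a + b < c + d := by
    intro a b c d h1 h2
    have h3 : (a + b + 1) * (a + b + 1 + 1) ≤ (c + d) * (c + d + 1) :=
      Nat.mul_le_mul (by omega) (by omega)
    nlinarith
  have h1 := key x y x' y' h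
  have h2 := key x' y' x y h.symm
  have h3 : x + y = x' + y' := by omega
  rw [h3] at h
  constructor <;> omega

theorem prN_mono {x y a : ℕ} (hx : x ≤ a) (hy : y ≤ a) : prN x y ≤ prN a a := by
  unfold prN
  have : (x + y) * ((x + y) + 1) ≤ (a + a) * ((a + a) + 1) := Nat.mul_le_mul (by omega) (by omega)
  omega

theorem le_prN (x y : ℕ) : y ≤ prN x y := by
  unfold prN
  have : 0 ≤ (x + y) * ((x + y) + 1) := Nat.zero_le _
  omega

theorem le_prN' (x y : ℕ) : x ≤ prN x y := by
  unfold prN
  nlinarith [Nat.zero_le x, Nat.zero_le y, Nat.zero_le (x * y), Nat.zero_le (x * x)]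

theorem size_mul_le (X Y i : ℕ) : (X % 2 ^ i * Y).size ≤ X.size + Y.size := by
  rw [Nat.size_le, pow_add]
  have h1 : X % 2 ^ i ≤ X := Nat.mod_le _ _
  have h2 := Nat.lt_size_self X
  have h3 := Nat.lt_size_self Y
  have h4 : 0 < 2 ^ Y.size := by positivity
  calc X % 2 ^ i * Y ≤ X * Y := Nat.mul_le_mul_right _ h1
    _ ≤ X * 2 ^ Y.size := Nat.mul_le_mul_left _ h3.le
    _ < 2 ^ X.size * 2 ^ Y.size := Nat.mul_lt_mul_of_pos_right h2 h4

theorem testBit_size {a j : ℕ} (h : a.testBit j = true) : j < a.size := by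
  by_contra h1
  push Not at h1
  have : a < 2 ^ j := Nat.size_le.1 h1
  rw [Nat.testBit_lt_two_pow this] at h
  exact absurd h (by simp)

theorem tabf_row (X Y i j : ℕ) (hi : i ≤ X.size) :
    (tabf (Nat.pair X Y)).testBit (prN i j) = true ↔ dig (X % 2 ^ i * Y) j := by
  unfold tabf
  rw [testBit_bset]
  simp only [Nat.unpair_pair]
  constructor
  · rintro ⟨h1, i', h2, j', h3, h4, h5⟩
    obtain ⟨rfl, rfl⟩ := prN_inj h4
    exact h5
  · intro h
    have h1 : j ≤ X.size + Y.size := (testBit_size h).le.trans (size_mul_le X Y i)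
    refine ⟨Nat.lt_succ_of_le (prN_mono (by omega) h1), i, hi, j, h1, rfl, h⟩

theorem tabN_tabf (X Y : ℕ) : TabN X Y (tabf (Nat.pair X Y)) (X * Y) := by
  refine ⟨fun j => ?_, fun i hi j => ?_, fun j => ?_⟩
  · rw [tabf_row X Y 0 j (Nat.zero_le _)]
    simp [dig, Nat.mod_one]
  · rw [tabf_row X Y (i + 1) j hi, tabf_row X Y i j hi.le, prod_succ]
    have : (fun j => (tabf (Nat.pair X Y)).testBit (prN i j) = true) = dig (X % 2 ^ i * Y) := by
      funext j
      exact propext (tabf_row X Y i j hi.le)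
    rw [this]
  · rw [tabf_row X Y X.size j le_rfl, mod_size]
    rfl

theorem tabf_lt (X Y : ℕ) : tabf (Nat.pair X Y) <
    2 ^ (prN (X.size + Y.size) (X.size + Y.size) + 1) := by
  unfold tabf
  simp only [Nat.unpair_pair]
  exact bset_lt _ _

theorem numf_row (X y u w : ℕ) :
    (numf (Nat.pair X y)).testBit (prN u w) = true ↔ u ≤ y ∧ w = ones X u := by
  unfold numf
  rw [testBit_bset]
  simp only [Nat.unpair_pair]
  have ho : ∀ u, ones X u ≤ u := by
    intro u
    unfold ones
    refine (Finset.card_filter_le _ _).trans ?_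
    simp
  constructor
  · rintro ⟨h1, u', h2, h3⟩
    obtain ⟨rfl, rfl⟩ := prN_inj h3
    exact ⟨h2, rfl⟩
  · rintro ⟨h1, rfl⟩
    exact ⟨Nat.lt_succ_of_le (prN_mono h1 ((ho u).trans h1)), u, h1, rfl⟩

theorem numf_lt (X y : ℕ) : numf (Nat.pair X y) < 2 ^ (prN y y + 1) := by
  unfold numf
  simp only [Nat.unpair_pair]
  exact bset_lt _ _

theorem ones_zero (X : ℕ) : ones X 0 = 0 := by simp [ones]

theorem ones_succ (X u : ℕ) : ones X (u + 1) = ones X u + if X.testBit u = true then 1 else 0 := by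
  unfold ones
  rw [Finset.range_add_one, Finset.filter_insert]
  split_ifs with h
  · rw [Finset.card_insert_of_notMem (by simp)]
  · simp

/-- bounded version of the table relation -/
def TabB (b X Y W Z : ℕ) : Prop :=
  (∀ j, j ≤ b → ¬ W.testBit (prN 0 j) = true) ∧
  (∀ i, i < X.size → ∀ j, j ≤ b → (W.testBit (prN (i + 1) j) = true ↔
    (X.testBit i = true ∧ sumN (fun j => W.testBit (prN i j) = true)
      (fun j => ∃ k, k + i = j ∧ Y.testBit k = true) j) ∨
    (¬ X.testBit i = true ∧ W.testBit (prN i j) = true))) ∧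
  ∀ j, j ≤ b → (Z.testBit j = true ↔ W.testBit (prN X.size j) = true)

theorem TabB.tabN {b X Y W Z : ℕ} (h : TabB b X Y W Z)
    (hb : W.size + X.size + Y.size + Z.size ≤ b) : TabN X Y W Z := by
  have hW : ∀ i j, W.size ≤ j → ¬ W.testBit (prN i j) = true := by
    intro i j hj h1
    have h2 := testBit_size h1
    have h3 := le_prN i j
    omega
  have hs : ∀ i, i < X.size → ∀ j, X.size + Y.size ≤ j →
      ¬ ∃ k, k + i = j ∧ Y.testBit k = true := by
    rintro i hi j hj ⟨k, hk, h1⟩
    have := testBit_size h1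
    omega
  refine ⟨fun j => ?_, fun i hi j => ?_, fun j => ?_⟩
  · by_cases hj : j ≤ b
    · exact h.1 j hj
    · exact hW _ _ (by omega)
  · by_cases hj : j ≤ b
    · exact h.2.1 i hi j hj
    · have h1 := hW (i + 1) j (by omega)
      have h2 := hW i j (by omega)
      have h3 := hs i hi j (by omega)
      have h4 : ¬ carN (fun j => W.testBit (prN i j) = true)
          (fun j => ∃ k, k + i = j ∧ Y.testBit k = true) j := by
        rintro ⟨k, hk1, hk2, hk3, hk4⟩
        by_cases hkj : k + 1 = j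
        · exact hW i k (by omega) hk2
        · rcases hk4 (j - 1) (by omega) (by omega) with h5 | h5
          · exact hW i (j - 1) (by omega) h5
          · exact hs i hi (j - 1) (by omega) h5
      have h5 : ¬ sumN (fun j => W.testBit (prN i j) = true)
          (fun j => ∃ k, k + i = j ∧ Y.testBit k = true) j := by
        unfold sumN Xor
        simp only [h2, h3, h4]
        simp
      simp only [h1, h2, h5]
      simp
  · by_cases hj : j ≤ b
    · exact h.2.2 j hj
    · have h1 := hW X.size j (by omega)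
      have h2 : ¬ Z.testBit j = true := by
        intro h3
        have := testBit_size h3
        omega
      simp only [h1, h2]

end Pool.Agent.H412R3.VTC
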