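import Pool.Agent.H412R3.VTC.Clos

set_option autoImplicit false

/-! The extension lemma. -/

namespace Pool.Agent.H412R3.VTC

open Filter

/-- the infinite number `ω` -/
noncomputable def om : U := ((fun i => i : ℕ → ℕ) : U)

/-- a property of all large numbers holds almost everywhere -/
theorem ev_ge (m : ℕ) {P : ℕ → Prop} (h : ∀ i, m ≤ i → P i) : ∀ᶠ i in (UU : Filter ℕ), P i := by
  have h1 : ∀ᶠ i in (atTop : Filter ℕ), P i := by
    filter_upwards [eventually_ge_atTop m] with i hi using h i hi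
  have h2 : (UU : Filter ℕ) ≤ atTop := by
    rw [← Nat.cofinite_eq_atTop]
    exact hyperfilter_le_cofinite
  exact h2 h1

/-- exponentials grow faster than polynomials -/
theorem pow_lt_two_pow (c : ℕ) : ∃ m : ℕ, ∀ i, m ≤ i → 2 * i ^ c < 2 ^ i := by
  have h1 : Tendsto (fun n : ℕ => ((n : ℝ) ^ c) / (2 : ℝ) ^ n) atTop (nhds 0) :=
    tendsto_pow_const_div_const_pow_of_one_lt c (by norm_num : (1 : ℝ) < 2)
  have h2 := (h1.eventually (gt_mem_nhds (by norm_num : (0 : ℝ) < 1 / 2)))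
  obtain ⟨m, hm⟩ := eventually_atTop.1 h2
  refine ⟨m, fun i hi => ?_⟩
  have h3 := hm i hi
  rw [div_lt_iff₀ (by positivity)] at h3
  have h4 : 2 * (i : ℝ) ^ c < 2 ^ i := by linarith
  exact_mod_cast h4

open Classical

/-- the state of the construction: a large definable family of sets -/
def Good (g : ℕ → ℕ) (p : ℕ → ℕ) : Prop :=
  ∃ c : ℕ, ∀ᶠ i in (UU : Filter ℕ), 2 ^ i ≤ (dset g (p i) (2 ^ i)).card * i ^ c

theorem good_one (p : ℕ → ℕ) : Good (fun _ => 1) p := by
  refine ⟨0, Eventually.of_forall (fun i => ?_)⟩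
  simp [dset]

theorem dset_andNe (g : ℕ → ℕ) (q v b : ℕ) :
    dset (andNe g) (Nat.pair q v) b = (dset g q b).erase v := by
  ext x
  simp only [dset, andNe, Finset.mem_filter, Finset.mem_erase, Nat.unpair_pair]
  constructor
  · rintro ⟨h1, h2⟩
    split_ifs at h2 with h3
    exact ⟨h3.2, h1, h3.1⟩
  · rintro ⟨h1, h2, h3⟩
    exact ⟨h2, by rw [if_pos ⟨h3, h1⟩]⟩

theorem dset_andEq (g f : ℕ → ℕ) (q v b : ℕ) :
    dset (andEq g f) (Nat.pair q v) b = (dset g q b).filter (fun x => f (Nat.pair q x) = v) := by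
  ext x
  simp only [dset, andEq, Finset.mem_filter, Nat.unpair_pair]
  constructor
  · rintro ⟨h1, h2⟩
    split_ifs at h2 with h3
    exact ⟨⟨h1, h3.1⟩, h3.2⟩
  · rintro ⟨⟨h1, h2⟩, h3⟩
    exact ⟨h1, by rw [if_pos ⟨h2, h3⟩]⟩

theorem dset_andGt (g f : ℕ → ℕ) (q v b : ℕ) :
    dset (andGt g f) (Nat.pair q v) b = (dset g q b).filter (fun x => v < f (Nat.pair q x)) := by
  ext x
  simp only [dset, andGt, Finset.mem_filter, Nat.unpair_pair]
  constructor
  · rintro ⟨h1, h2⟩
    split_ifs at h2 with h3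
    exact ⟨⟨h1, h3.1⟩, h3.2⟩
  · rintro ⟨⟨h1, h2⟩, h3⟩
    exact ⟨h1, by rw [if_pos ⟨h2, h3⟩]⟩

theorem good_erase {g p : ℕ → ℕ} (h : Good g p) (k : ℕ → ℕ) :
    Good (andNe g) (fun i => Nat.pair (p i) (k i)) := by
  obtain ⟨c, hc⟩ := h
  obtain ⟨m, hm⟩ := pow_lt_two_pow c
  refine ⟨c + 1, ?_⟩
  filter_upwards [hc, ev_ge (P := fun i => 2 * i ^ c < 2 ^ i) m hm,
    ev_ge (P := fun i => 2 ≤ i) 2 (fun i hi => hi)] with i h1 h2 h3
  simp only [dset_andNe]
  set D := dset g (p i) (2 ^ i) with hD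
  have h4 : 2 < D.card := by
    by_contra h5
    have h6 : D.card * i ^ c ≤ 2 * i ^ c := Nat.mul_le_mul_right _ (by omega)
    omega
  have h5 : D.card ≤ (D.erase (k i)).card * i := by
    have h6 := Finset.pred_card_le_card_erase (s := D) (a := k i)
    have h7 : (D.erase (k i)).card * 2 ≤ (D.erase (k i)).card * i := Nat.mul_le_mul_left _ h3
    omega
  calc 2 ^ i ≤ D.card * i ^ c := h1
    _ ≤ ((D.erase (k i)).card * i) * i ^ c := Nat.mul_le_mul_right _ h5
    _ = (D.erase (k i)).card * i ^ (c + 1) := by ring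

/-- the dichotomy: `f` is large, or takes the popular value -/
theorem card_pop (g f : ℕ → ℕ) (q b m : ℕ)
    (h : 2 * ((dset g q b).filter (fun x => m < f (Nat.pair q x))).card ≤ (dset g q b).card) :
    (dset g q b).card ≤ 2 * (m + 1) *
      ((dset g q b).filter (fun x => f (Nat.pair q x) =
        pop g f (Nat.pair q (Nat.pair b m)))).card := by
  set D := dset g q b with hD
  set v := pop g f (Nat.pair q (Nat.pair b m)) with hv
  have hv2 : ∀ w ≤ m, cnt g f q b w ≤ cnt g f q b v := by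
    have := (exists_pop g f (Nat.pair q (Nat.pair b m)).unpair.1
      (Nat.pair q (Nat.pair b m)).unpair.2.unpair.1
      (Nat.pair q (Nat.pair b m)).unpair.2.unpair.2).choose_spec.2
    simp only [Nat.unpair_pair] at this
    have e : v = (exists_pop g f q b m).choose := by
      simp only [hv, pop, Nat.unpair_pair]
    rw [e]
    exact this
  have h1 : D.card = (D.filter (fun x => m < f (Nat.pair q x))).card +
      (D.filter (fun x => ¬ m < f (Nat.pair q x))).card :=
    (Finset.card_filter_add_card_filter_not _).symm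
  have h2 : (D.filter (fun x => ¬ m < f (Nat.pair q x))).card ≤ (m + 1) * cnt g f q b v := by
    have h3 : (D.filter (fun x => ¬ m < f (Nat.pair q x))).card =
        ∑ w ∈ Finset.range (m + 1), ((D.filter (fun x => ¬ m < f (Nat.pair q x))).filter
          (fun x => f (Nat.pair q x) = w)).card := by
      refine Finset.card_eq_sum_card_fiberwise (fun x hx => ?_)
      have := (Finset.mem_filter.1 hx).2
      simp only [Finset.coe_range, Set.mem_Iio]
      omega
    rw [h3]
    calc _ ≤ ∑ w ∈ Finset.range (m + 1), cnt g f q b v := by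
          refine Finset.sum_le_sum (fun w hw => ?_)
          refine le_trans (Finset.card_le_card ?_) (hv2 w (by
            have := Finset.mem_range.1 hw; omega))
          intro x hx
          simp only [Finset.mem_filter] at hx ⊢
          exact ⟨hx.1.1, hx.2⟩
      _ = (m + 1) * cnt g f q b v := by simp
  have h3 : D.card ≤ 2 * ((m + 1) * cnt g f q b v) := by omega
  calc D.card ≤ 2 * ((m + 1) * cnt g f q b v) := h3
    _ = 2 * (m + 1) * (D.filter (fun x => f (Nat.pair q x) = v)).card := by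
        unfold cnt; rw [mul_assoc]

/-- one step -/
theorem step {S : Set (ℕ → ℕ)} (hS : Closed S) {G : Set U} (ha : Hull S G om)
    (g p : ℕ → ℕ) (hg : g ∈ S) (hp : Hull S G (p : U)) (hgood : Good g p)
    (f : ℕ → ℕ) (hf : f ∈ S) (k : ℕ → ℕ) (hk : Hull S G (k : U)) (n : ℕ) :
    ∃ g' p' : ℕ → ℕ, g' ∈ S ∧ Hull S G (p' : U) ∧ Good g' p' ∧
      (∀ i, dset g' (p' i) (2 ^ i) ⊆ dset g (p i) (2 ^ i)) ∧
      (∀ i, ∀ x ∈ dset g' (p' i) (2 ^ i), x ≠ k i) ∧
      ((∀ i, ∀ x ∈ dset g' (p' i) (2 ^ i), i ^ n < f (Nat.pair (k i) x)) ∨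
        ∃ w : ℕ → ℕ, Hull S G (w : U) ∧
          ∀ i, ∀ x ∈ dset g' (p' i) (2 ^ i), f (Nat.pair (k i) x) = w i) := by
  -- remove `k`
  set g₁ : ℕ → ℕ := andNe g with hg₁
  set p₁ : ℕ → ℕ := fun i => Nat.pair (p i) (k i) with hp₁
  have hg₁S : g₁ ∈ S := hS.andNe g hg
  have hp₁H : Hull S G (p₁ : U) := by
    have := Hull.pair _ _ hp hk
    simpa [prU, Germ.map₂_coe] using this
  have hgood₁ : Good g₁ p₁ := good_erase hgood k
  have hsub₁ : ∀ i, dset g₁ (p₁ i) (2 ^ i) ⊆ dset g (p i) (2 ^ i) := by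
    intro i
    simp only [hg₁, hp₁, dset_andNe]
    exact Finset.erase_subset _ _
  have hne₁ : ∀ i, ∀ x ∈ dset g₁ (p₁ i) (2 ^ i), x ≠ k i := by
    intro i x hx
    simp only [hg₁, hp₁, dset_andNe] at hx
    exact Finset.ne_of_mem_erase hx
  -- common parameters
  set g₂ : ℕ → ℕ := fun c => g₁ (Nat.pair c.unpair.1.unpair.1 c.unpair.2) with hg₂
  set f₂ : ℕ → ℕ := fun c => f (Nat.pair c.unpair.1.unpair.2 c.unpair.2) with hf₂
  have hg₂S : g₂ ∈ S := hS.comp g₁ hg₁S _
    (hS.prod _ (hS.comp _ hS.fst _ hS.fst) _ hS.snd)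
  have hf₂S : f₂ ∈ S := hS.comp f hf _
    (hS.prod _ (hS.comp _ hS.snd _ hS.fst) _ hS.snd)
  set q : ℕ → ℕ := fun i => Nat.pair (p₁ i) (k i) with hq
  have hqH : Hull S G (q : U) := by
    have := Hull.pair _ _ hp₁H hk
    simpa [prU, Germ.map₂_coe] using this
  have hds : ∀ i b, dset g₂ (q i) b = dset g₁ (p₁ i) b := by
    intro i b
    ext x
    simp [dset, hg₂, hq]
  have hfq : ∀ i x, f₂ (Nat.pair (q i) x) = f (Nat.pair (k i) x) := by
    intro i x
    simp [hf₂, hq]
  have homn : Hull S G ((fun i => i ^ n : ℕ → ℕ) : U) := by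
    have := Hull.map _ _ (hS.pow n) ha
    simpa [om, Germ.map_coe, Function.comp_def] using this
  have hom2 : Hull S G ((fun i => 2 ^ i : ℕ → ℕ) : U) := by
    have := Hull.map _ _ hS.two_pow ha
    simpa [om, Germ.map_coe, Function.comp_def] using this
  obtain ⟨c, hc⟩ := hgood₁
  rcases UU.em (fun i => 2 * ((dset g₂ (q i) (2 ^ i)).filter
      (fun x => i ^ n < f₂ (Nat.pair (q i) x))).card ≤ (dset g₂ (q i) (2 ^ i)).card) with h | h
  · -- popular value
    set w : ℕ → ℕ := fun i => pop g₂ f₂ (Nat.pair (q i) (Nat.pair (2 ^ i) (i ^ n))) with hw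
    have hwH : Hull S G (w : U) := by
      have h1 := Hull.pair _ _ hqH (Hull.pair _ _ hom2 homn)
      have := Hull.map _ _ (hS.pop g₂ hg₂S f₂ hf₂S) h1
      simpa [prU, Germ.map₂_coe, Germ.map_coe, Function.comp_def] using this
    refine ⟨andEq g₂ f₂, fun i => Nat.pair (q i) (w i), hS.andEq _ hg₂S _ hf₂S, ?_, ?_, ?_, ?_, ?_⟩
    · have := Hull.pair _ _ hqH hwH
      simpa [prU, Germ.map₂_coe] using this
    · refine ⟨n + 2 + c, ?_⟩
      filter_upwards [h, hc, ev_ge (P := fun i => 2 ≤ i) 2 (fun i hi => hi)] with i h1 h2 h3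
      simp only [dset_andEq]
      have h4 := card_pop g₂ f₂ (q i) (2 ^ i) (i ^ n) h1
      set E := (dset g₂ (q i) (2 ^ i)).filter (fun x => f₂ (Nat.pair (q i) x) = w i) with hE
      have h5 : 2 * (i ^ n + 1) ≤ i ^ (n + 2) := by
        have h6 : 1 ≤ i ^ n := Nat.one_le_pow _ _ (by omega)
        have h7 : i ^ n * 4 ≤ i ^ n * (i * i) := Nat.mul_le_mul_left _ (by nlinarith)
        calc 2 * (i ^ n + 1) ≤ i ^ n * 4 := by omega
          _ ≤ i ^ n * (i * i) := h7
          _ = i ^ (n + 2) := by ring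
      rw [← hds] at h2
      calc 2 ^ i ≤ (dset g₂ (q i) (2 ^ i)).card * i ^ c := h2
        _ ≤ (2 * (i ^ n + 1) * E.card) * i ^ c := Nat.mul_le_mul_right _ h4
        _ ≤ (i ^ (n + 2) * E.card) * i ^ c := by gcongr
        _ = E.card * i ^ (n + 2 + c) := by ring
    · intro i x hx
      rw [dset_andEq, hds] at hx
      exact hsub₁ i (Finset.mem_filter.1 hx).1
    · intro i x hx
      rw [dset_andEq, hds] at hx
      exact hne₁ i x (Finset.mem_filter.1 hx).1
    · refine Or.inr ⟨w, hwH, fun i x hx => ?_⟩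
      rw [dset_andEq] at hx
      have := (Finset.mem_filter.1 hx).2
      rwa [hfq] at this
  · refine ⟨andGt g₂ f₂, fun i => Nat.pair (q i) (i ^ n), hS.andGt _ hg₂S _ hf₂S, ?_, ?_, ?_, ?_,
      ?_⟩
    · have := Hull.pair _ _ hqH homn
      simpa [prU, Germ.map₂_coe] using this
    · refine ⟨c + 1, ?_⟩
      filter_upwards [h, hc, ev_ge (P := fun i => 2 ≤ i) 2 (fun i hi => hi)] with i h1 h2 h3
      simp only [dset_andGt]
      set E := (dset g₂ (q i) (2 ^ i)).filter (fun x => i ^ n < f₂ (Nat.pair (q i) x)) with hE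
      rw [← hds] at h2
      have h4 : (dset g₂ (q i) (2 ^ i)).card ≤ E.card * i := by
        have : E.card * 2 ≤ E.card * i := Nat.mul_le_mul_left _ h3
        omega
      calc 2 ^ i ≤ (dset g₂ (q i) (2 ^ i)).card * i ^ c := h2
        _ ≤ (E.card * i) * i ^ c := Nat.mul_le_mul_right _ h4
        _ = E.card * i ^ (c + 1) := by ring
    · intro i x hx
      rw [dset_andGt, hds] at hx
      exact hsub₁ i (Finset.mem_filter.1 hx).1
    · intro i x hx
      rw [dset_andGt, hds] at hx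
      exact hne₁ i x (Finset.mem_filter.1 hx).1
    · refine Or.inl (fun i x hx => ?_)
      rw [dset_andGt] at hx
      have := (Finset.mem_filter.1 hx).2
      rwa [hfq] at this

end Pool.Agent.H412R3.VTC
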