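import Pool.Agent.H412R3.VTC.Bits

set_option autoImplicit false

/-! Formulas for the definitions of the binary operations. -/

namespace Pool.Agent.H412R3.VTC

/-- renaming of variables in a term -/
def NTm.ren (f : ℕ → ℕ) : NTm → NTm
  | .var i => .var (f i)
  | .zero => .zero
  | .one => .one
  | .add s t => .add (s.ren f) (t.ren f)
  | .mul s t => .mul (s.ren f) (t.ren f)
  | .len i => .len i

/-- renaming under a quantifier -/
def upf (f : ℕ → ℕ) : ℕ → ℕ
  | 0 => 0
  | i + 1 => f i + 1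

/-- renaming of variables in a formula -/
def Fm.ren : (ℕ → ℕ) → Fm → Fm
  | f, .eq s t => .eq (s.ren f) (t.ren f)
  | f, .le s t => .le (s.ren f) (t.ren f)
  | f, .mem t i => .mem (t.ren f) i
  | _, .seq i j => .seq i j
  | f, .neg φ => .neg (φ.ren f)
  | f, .and φ ψ => .and (φ.ren f) (ψ.ren f)
  | f, .all t φ => .all (t.ren f) (φ.ren (upf f))

section general

variable (M : TS)

theorem tm_ren (f : ℕ → ℕ) (v : ℕ → M.Num) (V : ℕ → M.Str) (t : NTm) :
    M.tm v V (t.ren f) = M.tm (fun i => v (f i)) V t := by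
  induction t with
  | var i => rfl
  | zero => rfl
  | one => rfl
  | add s t ih1 ih2 => simp only [NTm.ren, TS.tm, ih1, ih2]
  | mul s t ih1 ih2 => simp only [NTm.ren, TS.tm, ih1, ih2]
  | len i => rfl

theorem sat_ren (V : ℕ → M.Str) (φ : Fm) : ∀ (f : ℕ → ℕ) (v : ℕ → M.Num),
    M.Sat V v (φ.ren f) ↔ M.Sat V (fun i => v (f i)) φ := by
  induction φ with
  | eq s t => intro f v; simp only [Fm.ren, TS.Sat, tm_ren]
  | le s t => intro f v; simp only [Fm.ren, TS.Sat, tm_ren]
  | mem t i => intro f v; simp only [Fm.ren, TS.Sat, tm_ren]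
  | seq i j => intro f v; simp only [Fm.ren, TS.Sat]
  | neg φ ih => intro f v; simp only [Fm.ren, TS.Sat, ih]
  | and φ ψ ih1 ih2 => intro f v; simp only [Fm.ren, TS.Sat, ih1, ih2]
  | all t φ ih =>
    intro f v
    simp only [Fm.ren, TS.Sat, tm_ren]
    refine forall_congr' (fun x => imp_congr_right (fun _ => ?_))
    rw [ih]
    have : (fun i => (cons x v) (upf f i)) = cons x (fun i => v (f i)) := by
      funext i
      cases i <;> rfl
    rw [this]

/-- disjunction -/
def Fm.or (φ ψ : Fm) : Fm := .neg (.and (.neg φ) (.neg ψ))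

/-- implication -/
def Fm.imp (φ ψ : Fm) : Fm := .neg (.and φ (.neg ψ))

/-- equivalence -/
def Fm.iff (φ ψ : Fm) : Fm := .and (φ.imp ψ) (ψ.imp φ)

/-- exclusive or -/
def Fm.xor (φ ψ : Fm) : Fm := .or (.and φ (.neg ψ)) (.and ψ (.neg φ))

/-- bounded existential quantifier -/
def Fm.ex (t : NTm) (φ : Fm) : Fm := .neg (.all t (.neg φ))

/-- strict inequality -/
def Fm.lt (s t : NTm) : Fm := .and (.le s t) (.neg (.eq s t))

theorem sat_or (V : ℕ → M.Str) (v : ℕ → M.Num) (φ ψ : Fm) :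
    M.Sat V v (φ.or ψ) ↔ M.Sat V v φ ∨ M.Sat V v ψ := by
  simp only [Fm.or, TS.Sat]; tauto

theorem sat_imp (V : ℕ → M.Str) (v : ℕ → M.Num) (φ ψ : Fm) :
    M.Sat V v (φ.imp ψ) ↔ (M.Sat V v φ → M.Sat V v ψ) := by
  simp only [Fm.imp, TS.Sat]; tauto

theorem sat_iff (V : ℕ → M.Str) (v : ℕ → M.Num) (φ ψ : Fm) :
    M.Sat V v (φ.iff ψ) ↔ (M.Sat V v φ ↔ M.Sat V v ψ) := by
  have h : M.Sat V v (φ.iff ψ) ↔ M.Sat V v (φ.imp ψ) ∧ M.Sat V v (ψ.imp φ) := Iff.rfl
  rw [h, sat_imp, sat_imp]; tauto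

theorem sat_xor (V : ℕ → M.Str) (v : ℕ → M.Num) (φ ψ : Fm) :
    M.Sat V v (φ.xor ψ) ↔ Xor (M.Sat V v φ) (M.Sat V v ψ) := by
  unfold Fm.xor Xor
  rw [sat_or]
  rfl

theorem sat_ex (V : ℕ → M.Str) (v : ℕ → M.Num) (t : NTm) (φ : Fm) :
    M.Sat V v (.ex t φ) ↔ ∃ x, M.le x (M.tm v V t) ∧ M.Sat V (cons x v) φ := by
  simp only [Fm.ex, TS.Sat]
  push Not
  rfl

theorem sat_all (V : ℕ → M.Str) (v : ℕ → M.Num) (t : NTm) (φ : Fm) :
    M.Sat V v (.all t φ) ↔ ∀ x, M.le x (M.tm v V t) → M.Sat V (cons x v) φ := Iff.rfl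

theorem sat_and (V : ℕ → M.Str) (v : ℕ → M.Num) (φ ψ : Fm) :
    M.Sat V v (.and φ ψ) ↔ M.Sat V v φ ∧ M.Sat V v ψ := Iff.rfl

theorem sat_neg (V : ℕ → M.Str) (v : ℕ → M.Num) (φ : Fm) :
    M.Sat V v (.neg φ) ↔ ¬ M.Sat V v φ := Iff.rfl

theorem sat_lt (V : ℕ → M.Str) (v : ℕ → M.Num) (s t : NTm) :
    M.Sat V v (.lt s t) ↔ M.lt (M.tm v V s) (M.tm v V t) := Iff.rfl

/-- the carry formula -/
def carF (α β : Fm) : Fm :=
  .ex (.var 0) (.and (.lt (.var 0) (.var 1)) (.and (α.ren (upf (fun i => i + 1)))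
    (.and (β.ren (upf (fun i => i + 1)))
      (.all (.var 1) (.imp (.and (.lt (.var 1) (.var 0)) (.lt (.var 0) (.var 2)))
        (.or (α.ren (upf (fun i => i + 2))) (β.ren (upf (fun i => i + 2)))))))))

theorem sat_carF (V : ℕ → M.Str) (v : ℕ → M.Num) (z : M.Num) (α β : Fm) :
    M.Sat V (cons z v) (carF α β) ↔
      M.Carry (fun k => M.Sat V (cons k v) α) (fun k => M.Sat V (cons k v) β) z := by
  have e1 : ∀ k, (fun i => (cons k (cons z v)) (upf (fun i => i + 1) i)) = cons k v := by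
    intro k; funext i; cases i <;> rfl
  have e2 : ∀ j k, (fun i => (cons j (cons k (cons z v))) (upf (fun i => i + 2) i)) =
      cons j v := by
    intro j k; funext i; cases i <;> rfl
  unfold carF TS.Carry
  rw [sat_ex]
  refine exists_congr (fun k => ?_)
  rw [sat_and, sat_lt, sat_and, sat_and, sat_ren, sat_ren, e1, sat_all]
  simp only [sat_imp, sat_and, sat_lt, sat_or, sat_ren, e2]
  change _ ∧ M.lt k z ∧ _ ∧ _ ∧ (∀ j, M.le j z → M.lt k j ∧ M.lt j z → _) ↔ _
  constructor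
  · rintro ⟨_, h2, h3, h4, h5⟩
    exact ⟨h2, h3, h4, fun j h6 h7 => h5 j h7.1 ⟨h6, h7⟩⟩
  · rintro ⟨h2, h3, h4, h5⟩
    exact ⟨h2.1, h2, h3, h4, fun j _ h6 => h5 j h6.1 h6.2⟩

/-- the sum formula -/
def sumF (α β : Fm) : Fm := .xor (.xor α β) (carF α β)

theorem sat_sumF (V : ℕ → M.Str) (v : ℕ → M.Num) (z : M.Num) (α β : Fm) :
    M.Sat V (cons z v) (sumF α β) ↔
      M.SumBit (fun k => M.Sat V (cons k v) α) (fun k => M.Sat V (cons k v) β) z := by
  unfold sumF TS.SumBit
  rw [sat_xor, sat_xor, sat_carF]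

/-- the pairing term -/
def prT (s t : NTm) : NTm := .add (.mul (.add s t) (.add (.add s t) .one)) (.mul (.add .one .one) t)

theorem tm_prT (v : ℕ → M.Num) (V : ℕ → M.Str) (s t : NTm) :
    M.tm v V (prT s t) = M.pr (M.tm v V s) (M.tm v V t) := rfl

/-- `j ∈` row `i` of `X_2`, `j` is `x_0` and `i` is `x_1` -/
def rowF : Fm := .mem (prT (.var 1) (.var 0)) 2

/-- `j ∈ 2 ^ i * X_1`, `j` is `x_0` and `i` is `x_1` -/
def shF : Fm := .ex (.var 0) (.and (.eq (.add (.var 0) (.var 2)) (.var 1)) (.mem (.var 0) 1))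

theorem sat_shF (h8 : ∀ x y, M.le x (M.add x y)) (V : ℕ → M.Str) (v : ℕ → M.Num)
    (i j : M.Num) : M.Sat V (cons j (cons i v)) shF ↔ M.shift (V 1) i j := by
  unfold shF TS.shift
  rw [sat_ex]
  refine exists_congr (fun k => ?_)
  constructor
  · rintro ⟨_, h⟩
    exact h
  · rintro h
    refine ⟨?_, h⟩
    change M.le k j
    rw [← h.1]
    exact h8 k i

/-- the recursion of the table, `j` is `x_0` and `i` is `x_1` -/
def bodyF : Fm :=
  .iff (.mem (prT (.add (.var 1) .one) (.var 0)) 2)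
    (.or (.and (.mem (.var 1) 0) (sumF rowF shF)) (.and (.neg (.mem (.var 1) 0)) rowF))

theorem sat_bodyF (h8 : ∀ x y, M.le x (M.add x y)) (V : ℕ → M.Str) (v : ℕ → M.Num)
    (i j : M.Num) : M.Sat V (cons j (cons i v)) bodyF ↔
      (M.row (V 2) (M.add i M.one) j ↔
        (M.mem i (V 0) ∧ M.SumBit (M.row (V 2) i) (M.shift (V 1) i) j) ∨
        (¬ M.mem i (V 0) ∧ M.row (V 2) i j)) := by
  unfold bodyF
  rw [sat_iff, sat_or, sat_and, sat_and, sat_sumF]
  have e : (fun k => M.Sat V (cons k (cons i v)) shF) = M.shift (V 1) i := by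
    funext k
    exact propext (sat_shF M h8 V v i k)
  rw [e]
  rfl

/-- the bounded table relation, the bound is `x_0` -/
def tabF : Fm :=
  .and (.all (.var 0) (.neg (.mem (prT .zero (.var 0)) 2)))
    (.and (.all (.len 0) (.imp (.lt (.var 0) (.len 0)) (.all (.var 1) bodyF)))
      (.all (.var 0) (.iff (.mem (.var 0) 3) (.mem (prT (.len 0) (.var 0)) 2))))

/-- bounded table relation in a structure -/
def TabG (b : M.Num) (X Y W Z : M.Str) : Prop :=
  (∀ j, M.le j b → ¬ M.row W M.zero j) ∧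
    (∀ i, M.lt i (M.len X) → ∀ j, M.le j b → (M.row W (M.add i M.one) j ↔
      (M.mem i X ∧ M.SumBit (M.row W i) (M.shift Y i) j) ∨ (¬ M.mem i X ∧ M.row W i j))) ∧
    ∀ j, M.le j b → (M.mem j Z ↔ M.row W (M.len X) j)

theorem sat_tabF (h8 : ∀ x y, M.le x (M.add x y)) (V : ℕ → M.Str) (v : ℕ → M.Num) :
    M.Sat V v tabF ↔ TabG M (v 0) (V 0) (V 1) (V 2) (V 3) := by
  unfold tabF TabG
  rw [sat_and, sat_and]
  refine and_congr Iff.rfl (and_congr ?_ ?_)
  · rw [sat_all]
    constructor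
    · intro h i hi j hj
      have h1 := (sat_imp M V (cons i v) _ _).1 (h i hi.1) hi
      have h2 := h1 j hj
      exact (sat_bodyF M h8 V v i j).1 ((sat_congr M bodyF (fun k _ => by
        cases k with
        | zero => rfl
        | succ k => cases k <;> rfl) (fun _ _ => rfl)).1 h2)
    · intro h i _
      rw [sat_imp]
      intro hi j hj
      exact (sat_bodyF M h8 V v i j).2 (h i hi j hj)
  · rw [sat_all]
    refine forall_congr' (fun j => imp_congr_right (fun _ => ?_))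
    rw [sat_iff]
    rfl

/-- the bounded addition relation, the bound is `x_0` -/
def addF : Fm := .all (.var 0) (.iff (.mem (.var 0) 2) (sumF (.mem (.var 0) 0) (.mem (.var 0) 1)))

theorem sat_addF (V : ℕ → M.Str) (v : ℕ → M.Num) :
    M.Sat V v addF ↔ ∀ i, M.le i (v 0) → (M.mem i (V 2) ↔
      M.SumBit (fun j => M.mem j (V 0)) (fun j => M.mem j (V 1)) i) := by
  unfold addF
  rw [sat_all]
  refine forall_congr' (fun j => imp_congr_right (fun _ => ?_))
  rw [sat_iff, sat_sumF]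
  rfl

/-- the bounded order relation, the bound is `x_0` -/
def sleF : Fm := .ex (.var 0) (.and (.mem (.var 0) 1) (.and (.neg (.mem (.var 0) 0))
  (.all (.var 1) (.imp (.lt (.var 1) (.var 0)) (.iff (.mem (.var 0) 0) (.mem (.var 0) 1))))))

theorem sat_sleF (V : ℕ → M.Str) (v : ℕ → M.Num) :
    M.Sat V v sleF ↔ ∃ i, M.le i (v 0) ∧ M.mem i (V 1) ∧ ¬ M.mem i (V 0) ∧
      ∀ j, M.le j (v 0) → M.lt i j → (M.mem j (V 0) ↔ M.mem j (V 1)) := by
  unfold sleF
  rw [sat_ex]
  refine exists_congr (fun i => ?_)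
  rw [sat_and, sat_and, sat_all]
  simp only [sat_imp, sat_iff, sat_lt]
  rfl

end general

/-! ### the standard model -/

theorem NN_lt (x y : ℕ) : NN.lt x y ↔ x < y :=
  ⟨fun h => lt_of_le_of_ne h.1 h.2, fun h => ⟨h.le, h.ne⟩⟩

theorem NN_carry (A B : ℕ → Prop) (i : ℕ) : NN.Carry A B i ↔ carN A B i := by
  unfold TS.Carry carN
  refine exists_congr (fun k => ?_)
  refine and_congr (NN_lt k i) (and_congr Iff.rfl (and_congr Iff.rfl ?_))
  exact forall_congr' (fun j => imp_congr (NN_lt k j) (imp_congr (NN_lt j i) Iff.rfl))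

theorem NN_sum (A B : ℕ → Prop) (i : ℕ) : NN.SumBit A B i ↔ sumN A B i := by
  unfold TS.SumBit sumN
  have h := propext (NN_carry A B i)
  exact iff_of_eq (congrArg (Xor (Xor (A i) (B i))) h)

theorem NN_tabG (b X Y W Z : ℕ) : TabG NN b X Y W Z ↔ TabB b X Y W Z := by
  unfold TabG TabB
  refine and_congr Iff.rfl (and_congr ?_ Iff.rfl)
  refine forall_congr' (fun i => imp_congr (NN_lt i X.size) ?_)
  refine forall_congr' (fun j => imp_congr_right (fun _ => iff_congr Iff.rfl ?_))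
  exact or_congr (and_congr Iff.rfl (NN_sum _ _ _)) Iff.rfl

theorem NN_addF (V v : ℕ → ℕ) (h : (V 0).size + (V 1).size + (V 2).size + 1 ≤ v 0) :
    SatN V v addF ↔ V 2 = V 0 + V 1 := by
  have h1 : SatN V v addF ↔ ∀ i : ℕ, i ≤ v 0 → ((V 2).testBit i = true ↔
      sumN (dig (V 0)) (dig (V 1)) i) := by
    have := sat_addF NN V v
    refine this.trans ?_
    refine forall_congr' (fun i => imp_congr_right (fun _ => iff_congr Iff.rfl ?_))
    exact NN_sum _ _ _
  rw [h1]
  simp only [sumN_iff]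
  constructor
  · intro h2
    refine Nat.eq_of_testBit_eq (fun i => ?_)
    rw [Bool.eq_iff_iff]
    by_cases hi : i ≤ v 0
    · exact h2 i hi
    · have h3 : ¬ (V 2).testBit i = true := fun h4 => by
        have := testBit_size h4; omega
      have h4 : ¬ (V 0 + V 1).testBit i = true := by
        intro h5
        have h6 : V 0 + V 1 < 2 ^ i := by
          have h7 := Nat.lt_size_self (V 0)
          have h8 := Nat.lt_size_self (V 1)
          have h9 : 2 ^ (V 0).size ≤ 2 ^ (i - 1) := Nat.pow_le_pow_right (by norm_num) (by omega)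
          have h10 : 2 ^ (V 1).size ≤ 2 ^ (i - 1) := Nat.pow_le_pow_right (by norm_num) (by omega)
          have h11 : 2 ^ i = 2 ^ (i - 1) + 2 ^ (i - 1) := by
            conv_lhs => rw [show i = (i - 1) + 1 by omega]
            rw [pow_succ]; ring
          omega
        rw [Nat.testBit_lt_two_pow h6] at h5
        exact absurd h5 (by simp)
      simp only [h3, h4]
  · intro h2 i _
    rw [h2]

theorem NN_sleF (V v : ℕ → ℕ) (h : (V 0).size + (V 1).size ≤ v 0) :
    SatN V v sleF ↔ V 0 < V 1 := by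
  have h1 : SatN V v sleF ↔ ∃ i : ℕ, i ≤ v 0 ∧ (V 1).testBit i = true ∧
      ¬ (V 0).testBit i = true ∧ ∀ j : ℕ, j ≤ v 0 → i < j →
      ((V 0).testBit j = true ↔ (V 1).testBit j = true) := by
    have := sat_sleF NN V v
    refine this.trans ?_
    refine exists_congr (fun i => and_congr Iff.rfl (and_congr Iff.rfl (and_congr Iff.rfl ?_)))
    exact forall_congr' (fun j => imp_congr_right (fun _ => imp_congr (NN_lt i j) Iff.rfl))
  rw [h1]
  constructor
  · rintro ⟨i, h2, h3, h4, h5⟩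
    refine Nat.lt_of_testBit i (by simpa using h4) h3 (fun j hj => ?_)
    rw [Bool.eq_iff_iff]
    by_cases hjv : j ≤ v 0
    · exact h5 j hjv hj
    · have h6 : ¬ (V 0).testBit j = true := fun h7 => by have := testBit_size h7; omega
      have h7 : ¬ (V 1).testBit j = true := fun h7 => by have := testBit_size h7; omega
      simp only [h6, h7]
  · intro h2
    have h3 : V 0 ^^^ V 1 ≠ 0 := by
      intro h4
      rw [Nat.xor_eq_zero_iff] at h4
      omega
    obtain ⟨i, h4, h5⟩ := Nat.exists_most_significant_bit h3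
    have h6 : ∀ j, i < j → ((V 0).testBit j = true ↔ (V 1).testBit j = true) := by
      intro j hj
      have h7 := h5 j hj
      rw [Nat.testBit_xor] at h7
      cases h8 : (V 0).testBit j <;> cases h9 : (V 1).testBit j <;> simp_all
    rw [Nat.testBit_xor] at h4
    cases h8 : (V 0).testBit i
    · have h9 : (V 1).testBit i = true := by simpa [h8] using h4
      exact ⟨i, by have := testBit_size h9; omega, h9, by simp [h8], fun j _ hj => h6 j hj⟩
    · exfalso
      have h9 : (V 1).testBit i = false := by simpa [h8] using h4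
      have h10 : V 1 < V 0 := by
        refine Nat.lt_of_testBit i h9 h8 (fun j hj => ?_)
        rw [Bool.eq_iff_iff]
        exact (h6 j hj).symm
      omega

end Pool.Agent.H412R3.VTC
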