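import Pool.Agent.H412R3.VTC.Form

set_option autoImplicit false

/-! The model satisfies the axioms. -/

namespace Pool.Agent.H412R3.VTC

open Filter Classical

namespace Ctx

variable {C : Ctx}

/-- the empty string -/
noncomputable def zS (C : Ctx) : C.Str := mkS (fun _ => 0) (by
  rw [isStr_iff]
  exact ⟨C.H_zero, 0, Eventually.of_forall (fun i => by positivity)⟩)

theorem valid (φ : Fm) (h : ∀ V v : ℕ → ℕ, SatN V v φ) (V : ℕ → C.Str) (v : ℕ → C.Num) :
    C.SatM V v φ := (C.transfer φ V v).2 (Eventually.of_forall (fun _ => h _ _))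

/-- assignment `x, y, 0, 0, …` -/
noncomputable def as2 (x y : C.Num) : ℕ → C.Num := cons x (cons y (fun _ => C.zeroM))

/-- assignment of strings -/
noncomputable def sa2 (X Y : C.Str) : ℕ → C.Str := cons X (cons Y (fun _ => zS C))

theorem isStr_add {x y : ℕ → ℕ} (hx : C.IsStr (x : U)) (hy : C.IsStr (y : U)) :
    C.IsStr ((fun i => x i + y i : ℕ → ℕ) : U) := by
  refine C.isStr_of (C.H_add hx.1 hy.1)
    (C.isNum_add (C.isNum_add (C.isNum_size hx) (C.isNum_size hy)) C.isNum_one) ?_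
  refine Eventually.of_forall (fun i => ?_)
  have h1 := Nat.lt_size_self (x i)
  have h2 := Nat.lt_size_self (y i)
  have h3 : 2 ^ (x i).size ≤ 2 ^ ((x i).size + (y i).size) :=
    Nat.pow_le_pow_right (by norm_num) (by omega)
  have h4 : 2 ^ (y i).size ≤ 2 ^ ((x i).size + (y i).size) :=
    Nat.pow_le_pow_right (by norm_num) (by omega)
  rw [pow_succ]
  omega

theorem isStr_mul {x y : ℕ → ℕ} (hx : C.IsStr (x : U)) (hy : C.IsStr (y : U)) :
    C.IsStr ((fun i => x i * y i : ℕ → ℕ) : U) := by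
  refine C.isStr_of (C.H_mul hx.1 hy.1)
    (C.isNum_add (C.isNum_size hx) (C.isNum_size hy)) ?_
  refine Eventually.of_forall (fun i => ?_)
  have h1 := Nat.lt_size_self (x i)
  have h2 := Nat.lt_size_self (y i)
  rw [pow_add]
  exact Nat.mul_lt_mul'' h1 h2

theorem isStr_sub {x y : ℕ → ℕ} (hx : C.IsStr (x : U)) (hy : C.IsStr (y : U)) :
    C.IsStr ((fun i => x i - y i : ℕ → ℕ) : U) := by
  refine C.isStr_of (C.H_sub hx.1 hy.1) (C.isNum_size hx) ?_
  refine Eventually.of_forall (fun i => ?_)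
  have h1 := Nat.lt_size_self (x i)
  have h2 : x i - y i ≤ x i := Nat.sub_le _ _
  exact h2.trans_lt h1

theorem isNum_pr {x y : ℕ → ℕ} (hx : C.IsNum (x : U)) (hy : C.IsNum (y : U)) :
    C.IsNum ((fun i => prN (x i) (y i) : ℕ → ℕ) : U) :=
  C.isNum_add (C.isNum_mul (C.isNum_add hx hy) (C.isNum_add (C.isNum_add hx hy) C.isNum_one))
    (C.isNum_mul (C.isNum_add C.isNum_one C.isNum_one) hy)

theorem rn_pr (x y : C.Num) :
    ∀ᶠ i in (UU : Filter ℕ), rn (C := C) (C.M.pr x y) i = prN (rn x i) (rn y i) := by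
  have := C.tm_rn (as2 x y) (fun _ => zS C) (prT (.var 0) (.var 1))
  exact this

/-! ### comprehension -/

theorem comp (φ : Fm) (V : ℕ → C.Str) (v : ℕ → C.Num) (y : C.Num) :
    ∃ X : C.Str, leM (lenM X) y ∧ ∀ z : C.Num, ltM z y → (memM z X ↔ C.SatM V (cons z v) φ) := by
  set x : ℕ → ℕ := fun i => cmf φ (Nat.pair (rn y i) (C.code φ.bd v V i)) with hx
  have hxH : C.H (x : U) := C.H_map (C.hb (Or.inr ⟨φ, rfl⟩))
    (C.H_pair (rn_num y).1 (C.H_code φ.bd v V))
  have hx2 : ∀ i, x i < 2 ^ (rn y i) := by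
    intro i
    have h1 : x i = bset (fun z => SatN (upk (C.code φ.bd v V i).unpair.2)
      (cons z (upk (C.code φ.bd v V i).unpair.1)) φ) (rn y i) := by
      simp only [hx, cmf, Nat.unpair_pair]
    rw [h1]
    exact bset_lt _ _
  have hxS : C.IsStr (x : U) := C.isStr_of hxH (rn_num y) (Eventually.of_forall hx2)
  refine ⟨mkS x hxS, ?_, ?_⟩
  · rw [leM_iff]
    filter_upwards [rn_lenM (mkS x hxS), rs_mk x hxS] with i h1 h2
    rw [h1, h2]
    exact Nat.size_le.2 (hx2 i)
  · intro z hz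
    rw [ltM_iff] at hz
    rw [memM_iff, C.transfer]
    refine eventually_congr ?_
    filter_upwards [hz, rs_mk x hxS] with i h1 h2
    rw [h2, en_cons, ← C.sat_code le_rfl v V i (rn z i)]
    have h3 : x i = bset (fun z => SatN (upk (C.code φ.bd v V i).unpair.2)
      (cons z (upk (C.code φ.bd v V i).unpair.1)) φ) (rn y i) := by
      simp only [hx, cmf, Nat.unpair_pair]
    rw [h3, testBit_bset]
    exact ⟨fun h => h.2, fun h => ⟨h1, h⟩⟩

/-! ### counting -/

theorem numones (X : C.Str) (y : C.Num) : ∃ Z : C.Str, C.M.mem (C.M.pr C.M.zero C.M.zero) Z ∧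
    (∀ u : C.Num, C.M.le u y → ∃! w : C.Num, C.M.mem (C.M.pr u w) Z) ∧
    ∀ u w : C.Num, C.M.lt u y → C.M.mem (C.M.pr u w) Z →
      (C.M.mem u X → C.M.mem (C.M.pr (C.M.add u C.M.one) (C.M.add w C.M.one)) Z) ∧
      (¬ C.M.mem u X → C.M.mem (C.M.pr (C.M.add u C.M.one) w) Z) := by
  set x : ℕ → ℕ := fun i => numf (Nat.pair (rs X i) (rn y i)) with hx
  have hxH : C.H (x : U) := C.H_map (C.hb (by simp [basic])) (C.H_pair (rs_str X).1 (rn_num y).1)
  have hxS : C.IsStr (x : U) := C.isStr_of hxH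
    (C.isNum_add (isNum_pr (rn_num y) (rn_num y)) C.isNum_one)
    (Eventually.of_forall (fun i => numf_lt _ _))
  have key : ∀ u w : C.Num, memM (C := C) (C.M.pr u w) (mkS x hxS) ↔
      ∀ᶠ i in (UU : Filter ℕ), rn u i ≤ rn y i ∧ rn w i = ones (rs X i) (rn u i) := by
    intro u w
    refine (memM_iff (C := C) (C.M.pr u w) (mkS x hxS)).trans ?_
    refine eventually_congr ?_
    filter_upwards [rs_mk x hxS, rn_pr u w] with i h1 h2
    rw [h1, h2]
    exact numf_row _ _ _ _
  -- the number of elements of `X` below `u`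
  have hon : ∀ u : C.Num, leM u y → ∃ w : C.Num,
      ∀ᶠ i in (UU : Filter ℕ), rn w i = ones (rs X i) (rn u i) := by
    intro u hu
    -- obtained by transfer from the formula `∃ w ≤ u, (u, w) ∈ Z`
    have h1 := (C.transfer (.ex (.var 0) (.mem (prT (.var 1) (.var 0)) 0))
      (fun _ => mkS x hxS) (fun _ => u)).2 (by
      rw [leM_iff] at hu
      filter_upwards [rs_mk x hxS, hu] with i h1 h2
      refine (sat_ex NN _ _ _ _).2 ⟨ones (rs X i) (rn u i), ?_, ?_⟩
      · change ones (rs X i) (rn u i) ≤ rn u i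
        unfold ones
        refine (Finset.card_filter_le _ _).trans ?_
        simp
      · change (rs (mkS x hxS) i).testBit (prN (rn u i) (ones (rs X i) (rn u i))) = true
        rw [h1]
        exact (numf_row _ _ _ _).2 ⟨h2, rfl⟩)
    obtain ⟨w, _, hw⟩ := (sat_ex C.M _ _ _ _).1 h1
    have h2 := (key u w).1 hw
    exact ⟨w, h2.mono (fun i hi => hi.2)⟩
  refine ⟨mkS x hxS, ?_, ?_, ?_⟩
  · refine (key C.zeroM C.zeroM).2 ?_
    filter_upwards [rn_zeroM (C := C)] with i h1
    rw [h1, ones_zero]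
    exact ⟨Nat.zero_le _, rfl⟩
  · intro u hu
    obtain ⟨w, hw⟩ := hon u hu
    refine ⟨w, (key u w).2 ?_, ?_⟩
    · have hu' : ∀ᶠ i in (UU : Filter ℕ), rn u i ≤ rn y i := hu
      filter_upwards [hw, hu'] with i h1 h2 using ⟨h2, h1⟩
    · intro w' hw'
      have h1 := (key u w').1 hw'
      refine (eqN_iff w' w).2 ?_
      filter_upwards [h1, hw] with i h2 h3
      rw [h2.2, h3]
  · intro u w hu hw
    have hu' := (ltM_iff u y).1 hu
    have hw' := (key u w).1 hw
    constructor
    · intro hX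
      refine (key (addM u C.oneM) (addM w C.oneM)).2 ?_
      have hX' : ∀ᶠ i in (UU : Filter ℕ), (rs X i).testBit (rn u i) = true := hX
      filter_upwards [hu', hw', hX', rn_addM u C.oneM, rn_addM w C.oneM, rn_oneM (C := C)]
        with i h1 h2 h3 h4 h5 h6
      rw [h4, h5, h6, ones_succ, if_pos h3, h2.2]
      exact ⟨h1, rfl⟩
    · intro hX
      refine (key (addM u C.oneM) w).2 ?_
      have hX' : ∀ᶠ i in (UU : Filter ℕ), ¬ (rs X i).testBit (rn u i) = true :=
        Ultrafilter.eventually_not.2 hX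
      filter_upwards [hu', hw', hX', rn_addM u C.oneM, rn_oneM (C := C)] with i h1 h2 h3 h4 h6
      rw [h4, h6, ones_succ, if_neg h3, h2.2]
      exact ⟨h1, rfl⟩

/-! ### basic axioms -/

theorem b8 (x y : C.Num) : C.M.le x (C.M.add x y) :=
  valid (.le (.var 0) (.add (.var 0) (.var 1))) (fun _ v => Nat.le_add_right (v 0) (v 1))
    (fun _ => zS C) (as2 x y)

/-! ### multiplication -/

/-- a large number -/
noncomputable def big (X Y Z : C.Str) : C.Num :=
  addM (addM (addM (lenM X) (lenM Y)) (lenM Z)) C.oneM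

theorem rn_big (X Y Z : C.Str) : ∀ᶠ i in (UU : Filter ℕ),
    rn (big X Y Z) i = (rs X i).size + (rs Y i).size + (rs Z i).size + 1 := by
  filter_upwards [rn_addM (addM (addM (lenM X) (lenM Y)) (lenM Z)) C.oneM,
    rn_addM (addM (lenM X) (lenM Y)) (lenM Z), rn_addM (lenM X) (lenM Y), rn_lenM X, rn_lenM Y,
    rn_lenM Z, rn_oneM (C := C)] with i h1 h2 h3 h4 h5 h6 h7
  unfold big
  rw [h1, h2, h3, h4, h5, h6, h7]

theorem tabG_iff (b : C.Num) (X Y W Z : C.Str) : TabG C.M b X Y W Z ↔
    ∀ᶠ i in (UU : Filter ℕ), TabB (rn b i) (rs X i) (rs Y i) (rs W i) (rs Z i) := by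
  have h1 := sat_tabF C.M (b8 (C := C)) (cons X (cons Y (cons W (fun _ => Z)))) (fun _ => b)
  have h2 := C.transfer tabF (cons X (cons Y (cons W (fun _ => Z)))) (fun _ => b)
  refine h1.symm.trans (h2.trans ?_)
  refine eventually_congr (Eventually.of_forall (fun i => ?_))
  have h3 := sat_tabF NN (fun x y => Nat.le_add_right x y)
    (C.es (cons X (cons Y (cons W (fun _ => Z)))) i) (C.en (fun _ => b) i)
  exact h3.trans (NN_tabG _ _ _ _ _)

theorem mulG_iff (X Y Z : C.Str) : C.M.MulG X Y Z ↔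
    ∀ᶠ i in (UU : Filter ℕ), rs X i * rs Y i = rs Z i := by
  constructor
  · rintro ⟨W, h1, h2, h3⟩
    set b : C.Num := addM (big X Y Z) (lenM W) with hb
    have h4 : TabG C.M b X Y W Z := ⟨fun j _ => h1 j, fun i hi j _ => h2 i hi j, fun j _ => h3 j⟩
    have h4' := (tabG_iff b X Y W Z).1 h4
    filter_upwards [h4', rn_big X Y Z, rn_addM (big X Y Z) (lenM W), rn_lenM (C := C) W]
      with i h5 h6 h7 h8
    have h9 := h5.tabN (by rw [hb, h7, h6, h8]; omega)
    exact h9.eq.symm
  · intro h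
    set w : ℕ → ℕ := fun i => tabf (Nat.pair (rs X i) (rs Y i)) with hw
    have hwH : C.H (w : U) := C.H_map (C.hb (by simp [basic]))
      (C.H_pair (rs_str X).1 (rs_str Y).1)
    have hsz := C.isNum_add (C.isNum_size (rs_str X)) (C.isNum_size (rs_str Y))
    have hwS : C.IsStr (w : U) := C.isStr_of hwH (C.isNum_add (isNum_pr hsz hsz) C.isNum_one)
      (Eventually.of_forall (fun i => tabf_lt _ _))
    have key : ∀ b : C.Num, TabG C.M b X Y (mkS w hwS) Z := by
      intro b
      rw [tabG_iff]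
      filter_upwards [h, rs_mk w hwS] with i h1 h2
      rw [h2, ← h1]
      have h3 := tabN_tabf (rs X i) (rs Y i)
      exact ⟨fun j _ => h3.1 j, fun i hi j _ => h3.2.1 i hi j, fun j _ => h3.2.2 j⟩
    have hle : ∀ j : C.Num, C.M.le j j := fun j => (leM_iff j j).2 (Eventually.of_forall
      (fun i => le_rfl))
    exact ⟨mkS w hwS, fun j => (key j).1 j (hle j), fun i hi j => (key j).2.1 i hi j (hle j),
      fun j => (key j).2.2 j (hle j)⟩

theorem addG_iff (X Y Z : C.Str) : C.M.AddG X Y Z ↔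
    ∀ᶠ i in (UU : Filter ℕ), rs X i + rs Y i = rs Z i := by
  have h1 := fun b : C.Num => sat_addF C.M (cons X (cons Y (fun _ => Z))) (fun _ => b)
  have h2 := fun b : C.Num => C.transfer addF (cons X (cons Y (fun _ => Z))) (fun _ => b)
  have hle : ∀ j : C.Num, C.M.le j j := fun j => (leM_iff j j).2 (Eventually.of_forall
      (fun i => le_rfl))
  constructor
  · intro h
    have h3 := (h2 (big X Y Z)).1 ((h1 (big X Y Z)).2 (fun i _ => h i))
    filter_upwards [h3, rn_big X Y Z] with i h4 h5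
    exact ((NN_addF _ _ (by
      change (rs X i).size + (rs Y i).size + (rs Z i).size + 1 ≤ rn (big X Y Z) i
      rw [h5])).1 h4).symm
  · intro h j
    -- use a large bound
    have h3 : C.SatM (cons X (cons Y (fun _ => Z))) (fun _ => addM (big X Y Z) j) addF := by
      rw [h2]
      filter_upwards [h, rn_big X Y Z, rn_addM (big X Y Z) j] with i h4 h5 h6
      refine (NN_addF _ _ ?_).2 h4.symm
      change (rs X i).size + (rs Y i).size + (rs Z i).size + 1 ≤ rn (addM (big X Y Z) j) i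
      rw [h6, h5]
      omega
    have h4 := (h1 (addM (big X Y Z) j)).1 h3 j
    refine h4 ((leM_iff _ _).2 ?_)
    filter_upwards [rn_addM (big X Y Z) j] with i h6
    rw [h6]
    omega

theorem strLe_iff (X Y : C.Str) : C.M.StrLe X Y ↔
    ∀ᶠ i in (UU : Filter ℕ), rs X i ≤ rs Y i := by
  have h1 := fun b : C.Num => sat_sleF C.M (cons X (fun _ => Y)) (fun _ => b)
  have h2 := fun b : C.Num => C.transfer sleF (cons X (fun _ => Y)) (fun _ => b)
  have h0 : ∀ j : C.Num, ∀ Z : C.Str, memM j Z → ltM j (lenM Z) := by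
    intro j Z hj
    rw [memM_iff] at hj
    rw [ltM_iff]
    filter_upwards [hj, rn_lenM Z] with i h3 h4
    rw [h4]
    exact testBit_size h3
  constructor
  · rintro (h | ⟨k, h3, h4, h5⟩)
    · rw [h]; exact Eventually.of_forall (fun i => le_rfl)
    · have hk := (ltM_iff (C := C) k (lenM Y)).1 (h0 k Y h3)
      have h6 := (h2 (big X Y Y)).1 ((h1 (big X Y Y)).2 ⟨k, (leM_iff k (big X Y Y)).2 (by
        filter_upwards [rn_big X Y Y, hk, rn_lenM Y] with i h7 h8 h9
        rw [h7]; omega), h3, h4, fun j _ hj => h5 j hj⟩)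
      filter_upwards [h6, rn_big X Y Y] with i h7 h8
      exact ((NN_sleF _ _ (by
        change (rs X i).size + (rs Y i).size ≤ rn (big X Y Y) i
        rw [h8]; omega)).1 h7).le
  · intro h
    by_cases heq : X = Y
    · exact Or.inl heq
    · rw [eqS_iff, ← Ultrafilter.eventually_not] at heq
      have h6 : C.SatM (cons X (fun _ => Y)) (fun _ => big X Y Y) sleF := by
        rw [h2]
        filter_upwards [h, heq, rn_big X Y Y] with i h4 h5 h6
        refine (NN_sleF _ _ ?_).2 ?_
        · change (rs X i).size + (rs Y i).size ≤ rn (big X Y Y) i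
          rw [h6]; omega
        · change rs X i < rs Y i
          omega
      obtain ⟨k, h7, h8, h9, h10⟩ := (h1 _).1 h6
      refine Or.inr ⟨k, h8, h9, fun j hj => ?_⟩
      by_cases hjb : C.M.le j (big X Y Y)
      · exact h10 j hjb hj
      · have h11 : ∀ Z : C.Str, (Z = X ∨ Z = Y) → ¬ memM j Z := by
          intro Z hZ hm
          apply hjb
          have h12 := (ltM_iff (C := C) j (lenM Z)).1 (h0 j Z hm)
          refine (leM_iff _ _).2 ?_
          filter_upwards [h12, rn_lenM Z, rn_big X Y Y] with i h13 h14 h15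
          rw [h15]
          rcases hZ with rfl | rfl <;> omega
        exact ⟨fun h => absurd h (h11 X (Or.inl rfl)), fun h => absurd h (h11 Y (Or.inr rfl))⟩

theorem mult (X Y : C.Str) : ∃ Z : C.Str, C.M.MulG X Y Z := by
  refine ⟨mkS _ (isStr_mul (rs_str X) (rs_str Y)), ?_⟩
  rw [mulG_iff]
  filter_upwards [rs_mk _ (isStr_mul (rs_str X) (rs_str Y))] with i h
  rw [h]

theorem size_testBit {X y : ℕ} (h : y + 1 = X.size) : X.testBit y = true := by
  by_contra h1
  have h2 : X < 2 ^ y := by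
    refine Nat.lt_pow_two_of_testBit _ (fun i hi => ?_)
    by_cases hiy : i = y
    · subst hiy; simpa using h1
    · have h3 : ¬ X.testBit i = true := fun h4 => by
        have := testBit_size h4; omega
      simpa using h3
  have := Nat.size_le.2 h2
  omega

theorem isVTC0 : IsVTC0 C.M where
  b1 x := valid (.neg (.eq (.add (.var 0) .one) .zero)) (fun V v => Nat.succ_ne_zero (v 0))
    (fun _ => zS C) (as2 x x)
  b2 x y := (sat_imp C.M _ _ _ _).1 (valid (.imp (.eq (.add (.var 0) .one) (.add (.var 1) .one))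
    (.eq (.var 0) (.var 1))) (fun V v => (sat_imp NN _ _ _ _).2 (fun h => Nat.succ.inj h))
    (fun _ => zS C) (as2 x y))
  b3 x := valid (.eq (.add (.var 0) .zero) (.var 0)) (fun V v => rfl) (fun _ => zS C) (as2 x x)
  b4 x y := valid (.eq (.add (.var 0) (.add (.var 1) .one)) (.add (.add (.var 0) (.var 1)) .one))
    (fun V v => rfl) (fun _ => zS C) (as2 x y)
  b5 x := valid (.eq (.mul (.var 0) .zero) .zero) (fun V v => rfl) (fun _ => zS C) (as2 x x)
  b6 x y := valid (.eq (.mul (.var 0) (.add (.var 1) .one)) (.add (.mul (.var 0) (.var 1)) (.var 0)))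
    (fun V v => rfl) (fun _ => zS C) (as2 x y)
  b7 x y h1 h2 := (sat_imp C.M _ _ _ _).1 (valid (.imp (.and (.le (.var 0) (.var 1))
    (.le (.var 1) (.var 0))) (.eq (.var 0) (.var 1))) (fun V v => (sat_imp NN _ _ _ _).2
      (fun h => Nat.le_antisymm h.1 h.2)) (fun _ => zS C) (as2 x y)) ⟨h1, h2⟩
  b8 x y := b8 x y
  b9 x := valid (.le .zero (.var 0)) (fun V v => Nat.zero_le (v 0)) (fun _ => zS C) (as2 x x)
  b10 x y := (sat_or C.M _ _ _ _).1 (valid (.or (.le (.var 0) (.var 1)) (.le (.var 1) (.var 0)))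
    (fun V v => (sat_or NN _ _ _ _).2 (Nat.le_total (v 0) (v 1))) (fun _ => zS C) (as2 x y))
  b11 x y := (sat_iff C.M _ _ _ _).1 (valid (.iff (.le (.var 0) (.var 1))
    (.lt (.var 0) (.add (.var 1) .one))) (fun V v => (sat_iff NN _ _ _ _).2 (by
      constructor
      · intro h
        exact (NN_lt (v 0) (v 1 + 1)).2 (Nat.lt_succ_of_le h)
      · intro h
        exact Nat.le_of_lt_succ ((NN_lt (v 0) (v 1 + 1)).1 h))) (fun _ => zS C) (as2 x y))
  b12 x hx := by
    have h := (sat_imp C.M _ _ _ _).1 (valid (.imp (.neg (.eq (.var 0) .zero))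
      (.ex (.var 0) (.eq (.add (.var 0) .one) (.var 1)))) (fun V v => (sat_imp NN _ _ _ _).2
        (fun h => (sat_ex NN _ _ _ _).2 (by
          have h' : v 0 ≠ 0 := h
          refine ⟨v 0 - 1, Nat.sub_le (v 0) 1, ?_⟩
          change v 0 - 1 + 1 = v 0
          omega))) (fun _ => zS C) (as2 x x)) hx
    exact (sat_ex C.M _ _ _ _).1 h
  l1 X y h := (sat_imp C.M _ _ _ _).1 (valid (.imp (.mem (.var 0) 0) (.lt (.var 0) (.len 0)))
    (fun V v => (sat_imp NN _ _ _ _).2 (fun h => (NN_lt _ _).2 (testBit_size h)))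
    (fun _ => X) (as2 y y)) h
  l2 X y h := (sat_imp C.M _ _ _ _).1 (valid (.imp (.eq (.add (.var 0) .one) (.len 0))
    (.mem (.var 0) 0)) (fun V v => (sat_imp NN _ _ _ _).2 (fun h => size_testBit h))
    (fun _ => X) (as2 y y)) h
  se X Y h1 h2 := by
    have h := (sat_imp C.M _ _ _ _).1 (valid (.imp (.and (.eq (.len 0) (.len 1))
      (.all (.len 0) (.imp (.lt (.var 0) (.len 0)) (.iff (.mem (.var 0) 0) (.mem (.var 0) 1)))))
      (.seq 0 1)) (fun V v => (sat_imp NN _ _ _ _).2 (fun h => by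
        have h3 : (V 0).size = (V 1).size := h.1
        change V 0 = V 1
        refine Nat.eq_of_testBit_eq (fun i => ?_)
        rw [Bool.eq_iff_iff]
        by_cases hi : i < (V 0).size
        · have h4 := (sat_imp NN _ _ _ _).1 (h.2 i hi.le) ((NN_lt i (V 0).size).2 hi)
          exact (sat_iff NN _ _ _ _).1 h4
        · have h4 : ¬ (V 0).testBit i = true := fun h5 => hi (testBit_size h5)
          have h5 : ¬ (V 1).testBit i = true := fun h5 => hi (by
            rw [h3]; exact testBit_size h5)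
          simp only [h4, h5]))
      (sa2 X Y) (fun _ => C.zeroM))
    exact h ⟨h1, fun i hi => (sat_imp C.M _ _ _ _).2 (fun hi2 =>
      (sat_iff C.M _ _ _ _).2 (h2 i hi2))⟩
  comp φ V v y := comp φ V v y
  numones X y := numones X y
  mult X Y := mult X Y

end Ctx

end Pool.Agent.H412R3.VTC
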