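import Pool.Agent.H412R3.VTC.Model

set_option autoImplicit false

/-! The ring of binary integers of the model; the cardinality argument. -/

universe u

namespace Pool.Agent.H412R3.VTC

open Filter Classical

/-- A discretely ordered ring with fewer binary lengths than elements is not an exponential
integer part: `P` is a countable set which meets all the intervals `(r / 2, r]`, `r ≥ 1`. -/
theorem not_expIP {R : Type} [CommRing R] [LinearOrder R] [IsStrictOrderedRing R] (P : Set R)
    (hP : P.Countable) (h : ∀ r : R, 0 < r → ∃ p ∈ P, p ≤ r ∧ r < p + p)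
    (hR : ¬ Countable R) : ¬ IsExpIP.{u} R := by
  rintro ⟨F, _, _, _, _, E, ι, hE1, hE2, hE3, hE4, hι, hdisc, hfl, -⟩
  have hE0 : E 0 = 1 := by
    have h1 := hE2 0 0
    rw [add_zero] at h1
    have h2 : 0 < E 0 := (hE3 _).2 ⟨0, rfl⟩
    have h3 : E 0 * (E 0 - 1) = 0 := by rw [mul_sub, mul_one, ← h1, sub_self]
    rcases mul_eq_zero.1 h3 with h4 | h4
    · exact absurd h4 h2.ne'
    · exact sub_eq_zero.1 h4
  have key : ∀ z : R, 0 < z → ∃ p ∈ P, ι p ≤ E (ι z) ∧ E (ι z) < ι p + ι p := by
    intro z hz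
    have h1 : 1 < E (ι z) := by
      rw [← hE0]
      apply hE1
      rw [← map_zero ι]
      exact hι hz
    obtain ⟨m, hm1, hm2⟩ := hfl (E (ι z))
    have hm : 0 < m := by
      by_contra h2
      push Not at h2
      have h3 : ι m ≤ ι 0 := hι.monotone h2
      rw [map_zero] at h3
      linarith
    obtain ⟨p, hpP, hp1, hp2⟩ := h m hm
    refine ⟨p, hpP, (hι.monotone hp1).trans hm1, ?_⟩
    have h4 : 1 ≤ p + p - m := hdisc _ (sub_pos.2 hp2)
    have h5 : m + 1 ≤ p + p := by linarith
    have h6 : ι (m + 1) ≤ ι (p + p) := hι.monotone h5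
    rw [map_add, map_add, map_one] at h6
    exact hm2.trans_le h6
  choose! f hf1 hf2 hf3 using key
  have hinj : Set.InjOn f {z | 0 < z} := by
    have aux : ∀ z z' : R, 0 < z → 0 < z' → f z = f z' → ¬ z < z' := by
      intro z z' hz hz' hff hlt
      have h1 : 1 ≤ z' - z := hdisc _ (sub_pos.2 hlt)
      have h2 : ι (z + 1) ≤ ι z' := hι.monotone (by linarith)
      rw [map_add, map_one] at h2
      have h3 : E (ι z + 1) ≤ E (ι z') := hE1.monotone h2
      rw [hE2, hE4] at h3
      have h4 := hf2 z hz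
      have h5 := hf3 z' hz'
      rw [← hff] at h5
      linarith
    intro z hz z' hz' hff
    rcases lt_trichotomy z z' with h1 | h1 | h1
    · exact absurd h1 (aux z z' hz hz' hff)
    · exact h1
    · exact absurd h1 (aux z' z hz' hz hff.symm)
  have hpos : {z : R | 0 < z}.Countable := by
    refine Set.MapsTo.countable_of_injOn (f := f) (t := P) ?_ hinj hP
    intro z hz
    exact hf1 z hz
  have hneg : {z : R | z < 0}.Countable := by
    have h1 : {z : R | z < 0} = (fun z => -z) '' {z : R | 0 < z} := by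
      ext z
      simp only [Set.mem_ofPred_eq, Set.mem_image]
      constructor
      · intro h2; exact ⟨-z, by linarith, by ring⟩
      · rintro ⟨w, h2, rfl⟩; linarith
    rw [h1]
    exact hpos.image _
  apply hR
  have h1 : (Set.univ : Set R) = {z | 0 < z} ∪ ({0} ∪ {z | z < 0}) := by
    ext z
    simp only [Set.mem_univ, Set.mem_union, Set.mem_ofPred_eq, Set.mem_singleton_iff, true_iff]
    rcases lt_trichotomy z 0 with h2 | h2 | h2
    · exact Or.inr (Or.inr h2)
    · exact Or.inr (Or.inl h2)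
    · exact Or.inl h2
  rw [← Set.countable_univ_iff, h1]
  exact hpos.union ((Set.countable_singleton 0).union hneg)

namespace Ctx

variable {C : Ctx}

/-- the string `{n}` -/
noncomputable def pwS (n : C.Num) : C.Str := mkS (fun i => 2 ^ (rn n i)) (by
  refine C.isStr_of (C.H_map C.hS.two_pow (rn_num n).1)
    (C.isNum_add (rn_num n) C.isNum_one) ?_
  refine Eventually.of_forall (fun i => ?_)
  exact Nat.pow_lt_pow_right (by norm_num) (Nat.lt_succ_self _))

theorem rs_pwS (n : C.Num) : ∀ᶠ i in (UU : Filter ℕ), rs (pwS n) i = 2 ^ (rn n i) := rs_mk _ _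

/-- in any ring of binary integers of the model the countable set of the powers `2 ^ n`, `n` a number,
meets all the intervals `(r / 2, r]` -/
theorem exists_pw {R : Type} [CommRing R] [LinearOrder R] [IsStrictOrderedRing R]
    (val : C.Str → R) (h : BinRing C.M R val) (r : R) (hr : 0 < r) :
    ∃ n : C.Num, val (pwS n) ≤ r ∧ r < val (pwS n) + val (pwS n) := by
  obtain ⟨X, hXr⟩ : ∃ X : C.Str, val X = r := (h.surj r).1 hr.le
  subst hXr
  have hle : ∀ X Y : C.Str, val X ≤ val Y ↔ ∀ᶠ i in (UU : Filter ℕ), rs X i ≤ rs Y i :=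
    fun X Y => (h.le X Y).trans (strLe_iff X Y)
  have hadd : ∀ X Y Z : C.Str, val X + val Y = val Z ↔
      ∀ᶠ i in (UU : Filter ℕ), rs X i + rs Y i = rs Z i :=
    fun X Y Z => (h.add X Y Z).trans (addG_iff X Y Z)
  have h0 : val (zS C) = 0 := by
    have h1 : val (zS C) + val (zS C) = val (zS C) := by
      rw [hadd]
      filter_upwards [rs_mk (C := C) (fun _ => 0) (zS C).h] with i hi
      change rs (zS C) i = 0 at hi
      rw [hi]
    linarith [h1]
  have hX : ∀ᶠ i in (UU : Filter ℕ), rs X i ≠ 0 := by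
    rw [Ultrafilter.eventually_not]
    intro h1
    have h2 : X = zS C := by
      rw [eqS_iff]
      filter_upwards [h1, rs_mk (C := C) (fun _ => 0) (zS C).h] with i h3 h4
      change rs (zS C) i = 0 at h4
      rw [h3, h4]
    rw [h2, h0] at hr
    exact lt_irrefl _ hr
  -- the length minus one
  have hnN : C.IsNum ((fun i => (rs X i).size - 1 : ℕ → ℕ) : U) := by
    refine C.isNum_le (C.H_sub (C.H_size (rs_str X).1) C.H_one) (C.isNum_size (rs_str X)) ?_
    exact Eventually.of_forall (fun i => Nat.sub_le _ _)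
  set n : C.Num := mkN _ hnN with hn
  have hn' := rn_mk _ hnN
  have hsz : ∀ x : ℕ, x ≠ 0 → 2 ^ (x.size - 1) ≤ x ∧ x < 2 ^ (x.size - 1) + 2 ^ (x.size - 1) := by
    intro x hx
    have h1 : 0 < x.size := Nat.size_pos.2 (Nat.pos_of_ne_zero hx)
    have h2 : x < 2 ^ x.size := Nat.lt_size_self x
    have h3 : 2 ^ x.size = 2 ^ (x.size - 1) + 2 ^ (x.size - 1) := by
      conv_lhs => rw [show x.size = (x.size - 1) + 1 by omega]
      rw [pow_succ]; ring
    refine ⟨?_, by omega⟩
    by_contra h4
    push Not at h4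
    have := Nat.size_le.2 h4
    omega
  refine ⟨n, ?_, ?_⟩
  · rw [hle]
    filter_upwards [rs_pwS n, hn', hX] with i h1 h2 h3
    rw [h1, h2]
    exact (hsz _ h3).1
  · have h5 : val (pwS n) + val (pwS n) = val (pwS (addM n C.oneM)) := by
      rw [hadd]
      filter_upwards [rs_pwS n, rs_pwS (addM n C.oneM), rn_addM n C.oneM, rn_oneM (C := C)]
        with i h1 h2 h3 h4
      rw [h1, h2, h3, h4, pow_succ]
      ring
    rw [h5, ← not_le, hle]
    intro h7
    obtain ⟨i, h1, h2, h3, h4, h8, h9⟩ := (h7.and ((rs_pwS (addM n C.oneM)).and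
      ((rn_addM n C.oneM).and ((rn_oneM (C := C)).and (hn'.and hX))))).exists
    rw [h2, h3, h4, h8, pow_succ] at h1
    have h10 := (hsz _ h9).2
    omega

/-! ### the ring -/

/-- hyperintegers -/
abbrev ZU : Type := Germ (UU : Filter ℕ) ℤ

/-- the difference of two sequences -/
noncomputable def df (x y : ℕ → ℕ) : ZU := ((fun i => (x i : ℤ) - (y i : ℤ) : ℕ → ℤ) : ZU)

variable (C)

/-- the ring of differences of strings -/
def RR : Subring ZU where
  carrier := {z | ∃ x y : ℕ → ℕ, C.IsStr (x : U) ∧ C.IsStr (y : U) ∧ z = df x y}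
  mul_mem' := by
    rintro _ _ ⟨x, y, hx, hy, rfl⟩ ⟨x', y', hx', hy', rfl⟩
    refine ⟨_, _, isStr_add (isStr_mul hx hx') (isStr_mul hy hy'),
      isStr_add (isStr_mul hx hy') (isStr_mul hy hx'), ?_⟩
    unfold df
    rw [← Germ.coe_mul]
    congr 1
    funext i
    simp only [Pi.mul_apply]
    push_cast
    ring
  add_mem' := by
    rintro _ _ ⟨x, y, hx, hy, rfl⟩ ⟨x', y', hx', hy', rfl⟩
    refine ⟨_, _, isStr_add hx hx', isStr_add hy hy', ?_⟩
    unfold df
    rw [← Germ.coe_add]
    congr 1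
    funext i
    simp only [Pi.add_apply]
    push_cast
    ring
  neg_mem' := by
    rintro _ ⟨x, y, hx, hy, rfl⟩
    refine ⟨y, x, hy, hx, ?_⟩
    unfold df
    rw [← Germ.coe_neg]
    congr 1
    funext i
    simp only [Pi.neg_apply]
    ring
  zero_mem' := by
    refine ⟨_, _, (zS C).h, (zS C).h, ?_⟩
    unfold df
    simp only [sub_self]
    rfl
  one_mem' := by
    have h1 : C.IsStr ((fun _ => 1 : ℕ → ℕ) : U) := by
      refine C.isStr_of C.H_one C.isNum_one (Eventually.of_forall (fun i => by norm_num))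
    refine ⟨_, _, h1, (zS C).h, ?_⟩
    unfold df
    simp only [Nat.cast_one, Nat.cast_zero, sub_zero]
    rfl

/-- the value of a string -/
noncomputable def val (X : C.Str) : C.RR :=
  ⟨df (rs X) (fun _ => 0), rs X, fun _ => 0, rs_str X, (zS C).h, rfl⟩

theorem val_coe (X : C.Str) : (C.val X : ZU) = ((fun i => (rs X i : ℤ) : ℕ → ℤ) : ZU) := by
  change df (rs X) (fun _ => 0) = _
  unfold df
  simp

theorem binRing : BinRing C.M C.RR C.val where
  inj := by
    intro X Y h
    have h1 : (C.val X : ZU) = C.val Y := by rw [h]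
    have e1 : (C.val X : ZU) = ((fun i => (rs (C := C) X i : ℤ) : ℕ → ℤ) : ZU) := C.val_coe X
    have e2 : (C.val Y : ZU) = ((fun i => (rs (C := C) Y i : ℤ) : ℕ → ℤ) : ZU) := C.val_coe Y
    rw [e1, e2, Germ.coe_eq] at h1
    refine (eqS_iff X Y).2 ?_
    filter_upwards [h1] with i h2
    exact_mod_cast h2
  surj := by
    intro r
    constructor
    · intro hr
      obtain ⟨x, y, hx, hy, h⟩ := r.2
      have h1 : (0 : ZU) ≤ df x y := by rw [← h]; exact hr
      have h2 : ∀ᶠ i in (UU : Filter ℕ), y i ≤ x i := by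
        have h3 : ((fun _ => 0 : ℕ → ℤ) : ZU) ≤ df x y := h1
        unfold df at h3
        rw [Germ.coe_le] at h3
        filter_upwards [h3] with i h4
        have h5 : (0 : ℤ) ≤ (x i : ℤ) - (y i : ℤ) := h4
        omega
      refine ⟨mkS _ (isStr_sub hx hy), Subtype.ext ?_⟩
      refine (C.val_coe (mkS _ (isStr_sub hx hy))).trans ?_
      rw [h]
      unfold df
      rw [Germ.coe_eq]
      filter_upwards [h2, rs_mk _ (isStr_sub hx hy)] with i h3 h4
      rw [h4]
      push_cast [Nat.cast_sub h3]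
      rfl
    · rintro ⟨X, rfl⟩
      change (0 : ZU) ≤ (C.val X : ZU)
      have h1 : (C.val X : ZU) = ((fun i => (rs (C := C) X i : ℤ) : ℕ → ℤ) : ZU) := C.val_coe X
      rw [h1]
      change ((fun _ => 0 : ℕ → ℤ) : ZU) ≤ _
      rw [Germ.coe_le]
      exact Eventually.of_forall (fun i => Int.natCast_nonneg _)
  le := by
    intro X Y
    refine Iff.trans ?_ (strLe_iff X Y).symm
    change (C.val X : ZU) ≤ (C.val Y : ZU) ↔ _
    have h1 : (C.val X : ZU) = ((fun i => (rs (C := C) X i : ℤ) : ℕ → ℤ) : ZU) := C.val_coe X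
    have h2 : (C.val Y : ZU) = ((fun i => (rs (C := C) Y i : ℤ) : ℕ → ℤ) : ZU) := C.val_coe Y
    rw [h1, h2, Germ.coe_le]
    refine eventually_congr (Eventually.of_forall (fun i => ?_))
    exact Nat.cast_le
  add := by
    intro X Y Z
    refine Iff.trans ?_ (addG_iff X Y Z).symm
    rw [← Subtype.coe_inj]
    change (C.val X : ZU) + (C.val Y : ZU) = (C.val Z : ZU) ↔ _
    have h1 : (C.val X : ZU) = ((fun i => (rs (C := C) X i : ℤ) : ℕ → ℤ) : ZU) := C.val_coe X
    have h2 : (C.val Y : ZU) = ((fun i => (rs (C := C) Y i : ℤ) : ℕ → ℤ) : ZU) := C.val_coe Y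
    have h3 : (C.val Z : ZU) = ((fun i => (rs (C := C) Z i : ℤ) : ℕ → ℤ) : ZU) := C.val_coe Z
    rw [h1, h2, h3, ← Germ.coe_add, Germ.coe_eq]
    refine eventually_congr (Eventually.of_forall (fun i => ?_))
    simp only [Pi.add_apply]
    exact_mod_cast Iff.rfl
  mul := by
    intro X Y Z
    refine Iff.trans ?_ (mulG_iff X Y Z).symm
    rw [← Subtype.coe_inj]
    change (C.val X : ZU) * (C.val Y : ZU) = (C.val Z : ZU) ↔ _
    have h1 : (C.val X : ZU) = ((fun i => (rs (C := C) X i : ℤ) : ℕ → ℤ) : ZU) := C.val_coe X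
    have h2 : (C.val Y : ZU) = ((fun i => (rs (C := C) Y i : ℤ) : ℕ → ℤ) : ZU) := C.val_coe Y
    have h3 : (C.val Z : ZU) = ((fun i => (rs (C := C) Z i : ℤ) : ℕ → ℤ) : ZU) := C.val_coe Z
    rw [h1, h2, h3, ← Germ.coe_mul, Germ.coe_eq]
    refine eventually_congr (Eventually.of_forall (fun i => ?_))
    simp only [Pi.mul_apply]
    exact_mod_cast Iff.rfl
  discrete := by
    intro r hr
    obtain ⟨x, y, hx, hy, h⟩ := r.2
    change (1 : ZU) ≤ (r : ZU)
    have h1 : (0 : ZU) < (r : ZU) := hr
    rw [h] at h1 ⊢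
    change ((fun _ => 0 : ℕ → ℤ) : ZU) < _ at h1
    change ((fun _ => 1 : ℕ → ℤ) : ZU) ≤ _
    unfold df at h1 ⊢
    rw [Germ.coe_lt] at h1
    rw [Germ.coe_le]
    filter_upwards [h1] with i h2
    exact h2

end Ctx

/-- the main construction -/
theorem main : ∃ M : TS, IsVTC0 M ∧ Countable M.Num ∧ Uncountable M.Str ∧
    (∃ (R : Type) (_ : CommRing R) (_ : LinearOrder R) (_ : IsStrictOrderedRing R)
      (val : M.Str → R), BinRing M R val) ∧
    ∀ (R : Type) [CommRing R] [LinearOrder R] [IsStrictOrderedRing R] (val : M.Str → R),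
      BinRing M R val → ¬ IsExpIP.{u} R := by
  obtain ⟨S, hb, hSc, hS⟩ := exists_closed basic basic_countable
  obtain ⟨G, hom, hGu, hG1, hG2⟩ := exists_gen hS hSc
  let C : Ctx := ⟨S, G, hS, hb, hom⟩
  have hNum : Countable C.Num := by
    have h1 : {x | Hull S {om} x}.Countable := Hull.countable hSc (Set.countable_singleton om)
    have h2 : Countable {x | Hull S {om} x} := h1.to_subtype
    let f : C.Num → {x | Hull S {om} x} := fun x => ⟨x.v, by
      obtain ⟨n, hn⟩ := x.h.2
      exact hG2 x.v x.h.1 n hn⟩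
    have hf : Function.Injective f := by
      intro x y h
      have h3 : x.v = y.v := congrArg Subtype.val h
      cases x; cases y; simp only at h3; subst h3; rfl
    exact hf.countable
  have hStr : ¬ Countable C.Str := by
    intro h
    apply hGu
    let f : G → C.Str := fun x => ⟨x.1, Hull.base _ x.2, 1, by
      have h1 := hG1 x.1 x.2
      have h2 : Germ.map (fun i => 2 ^ i) om = Ctx.tp 1 := by
        unfold Ctx.tp om
        simp only [pow_one]
        rfl
      rw [h2] at h1
      exact h1⟩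
    have hf : Function.Injective f := by
      intro x y h
      exact Subtype.ext (congrArg Ctx.Str.v h)
    exact Set.countable_coe_iff.1 hf.countable
  refine ⟨C.M, Ctx.isVTC0, hNum, not_countable_iff.1 hStr,
    ⟨C.RR, inferInstance, inferInstance, inferInstance, C.val, C.binRing⟩, ?_⟩
  intro R _ _ _ val hval
  refine not_expIP (Set.range (fun n : C.Num => val (Ctx.pwS n))) (Set.countable_range _) ?_ ?_
  · intro r hr
    obtain ⟨n, h1, h2⟩ := Ctx.exists_pw (C := C) val hval r hr
    exact ⟨_, ⟨n, rfl⟩, h1, h2⟩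
  · intro h
    exact hStr (hval.inj.countable)

end Pool.Agent.H412R3.VTC
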