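import Pool.Agent.H412R3.VTC.Ext2
import Pool.Agent.H412R3.VTC.Defs

set_option autoImplicit false

/-! The standard model, the model built from a hull, and the transfer theorem. -/

namespace Pool.Agent.H412R3.VTC

open Filter Classical

deriving instance Encodable for NTm
deriving instance Encodable for Fm

/-- the standard model; finite sets are coded by the binary digits of natural numbers -/
def NN : TS where
  Num := ℕ
  Str := ℕ
  zero := 0
  one := 1
  add := (· + ·)
  mul := (· * ·)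
  le := (· ≤ ·)
  len := Nat.size
  mem := fun x X => X.testBit x = true

/-- bound on the variables of a term -/
def NTm.bd : NTm → ℕ
  | .var i => i + 1
  | .zero => 0
  | .one => 0
  | .add s t => max s.bd t.bd
  | .mul s t => max s.bd t.bd
  | .len i => i + 1

/-- bound on the variables of a formula -/
def Fm.bd : Fm → ℕ
  | .eq s t => max s.bd t.bd
  | .le s t => max s.bd t.bd
  | .mem t i => max t.bd (i + 1)
  | .seq i j => max (i + 1) (j + 1)
  | .neg φ => φ.bd
  | .and φ ψ => max φ.bd ψ.bd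
  | .all t φ => max t.bd φ.bd

theorem tm_congr (M : TS) {v v' : ℕ → M.Num} {V V' : ℕ → M.Str} (t : NTm)
    (h : ∀ i < t.bd, v i = v' i) (hV : ∀ i < t.bd, V i = V' i) :
    M.tm v V t = M.tm v' V' t := by
  induction t with
  | var i => exact h i (Nat.lt_succ_self i)
  | zero => rfl
  | one => rfl
  | add s t ih1 ih2 =>
    simp only [TS.tm]
    rw [ih1 (fun i hi => h i (lt_of_lt_of_le hi (le_max_left _ _)))
      (fun i hi => hV i (lt_of_lt_of_le hi (le_max_left _ _))),
      ih2 (fun i hi => h i (lt_of_lt_of_le hi (le_max_right _ _)))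
      (fun i hi => hV i (lt_of_lt_of_le hi (le_max_right _ _)))]
  | mul s t ih1 ih2 =>
    simp only [TS.tm]
    rw [ih1 (fun i hi => h i (lt_of_lt_of_le hi (le_max_left _ _)))
      (fun i hi => hV i (lt_of_lt_of_le hi (le_max_left _ _))),
      ih2 (fun i hi => h i (lt_of_lt_of_le hi (le_max_right _ _)))
      (fun i hi => hV i (lt_of_lt_of_le hi (le_max_right _ _)))]
  | len i =>
    simp only [TS.tm]
    rw [hV i (Nat.lt_succ_self i)]

theorem sat_congr (M : TS) (φ : Fm) : ∀ {v v' : ℕ → M.Num} {V V' : ℕ → M.Str}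
    (_ : ∀ i < φ.bd, v i = v' i) (_ : ∀ i < φ.bd, V i = V' i),
    M.Sat V v φ ↔ M.Sat V' v' φ := by
  induction φ with
  | eq s t =>
    intro v v' V V' h hV
    simp only [TS.Sat]
    rw [tm_congr M s (fun i hi => h i (lt_of_lt_of_le hi (le_max_left _ _)))
      (fun i hi => hV i (lt_of_lt_of_le hi (le_max_left _ _))),
      tm_congr M t (fun i hi => h i (lt_of_lt_of_le hi (le_max_right _ _)))
      (fun i hi => hV i (lt_of_lt_of_le hi (le_max_right _ _)))]
  | le s t =>
    intro v v' V V' h hV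
    simp only [TS.Sat]
    rw [tm_congr M s (fun i hi => h i (lt_of_lt_of_le hi (le_max_left _ _)))
      (fun i hi => hV i (lt_of_lt_of_le hi (le_max_left _ _))),
      tm_congr M t (fun i hi => h i (lt_of_lt_of_le hi (le_max_right _ _)))
      (fun i hi => hV i (lt_of_lt_of_le hi (le_max_right _ _)))]
  | mem t i =>
    intro v v' V V' h hV
    simp only [TS.Sat]
    rw [tm_congr M t (fun i hi => h i (lt_of_lt_of_le hi (le_max_left _ _)))
      (fun i hi => hV i (lt_of_lt_of_le hi (le_max_left _ _))),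
      hV i (lt_of_lt_of_le (Nat.lt_succ_self i) (le_max_right _ _))]
  | seq i j =>
    intro v v' V V' h hV
    simp only [TS.Sat]
    rw [hV i (lt_of_lt_of_le (Nat.lt_succ_self i) (le_max_left _ _)),
      hV j (lt_of_lt_of_le (Nat.lt_succ_self j) (le_max_right _ _))]
  | neg φ ih =>
    intro v v' V V' h hV
    simp only [TS.Sat]
    rw [ih h hV]
  | and φ ψ ih1 ih2 =>
    intro v v' V V' h hV
    simp only [TS.Sat]
    rw [ih1 (fun i hi => h i (lt_of_lt_of_le hi (le_max_left _ _)))
      (fun i hi => hV i (lt_of_lt_of_le hi (le_max_left _ _))),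
      ih2 (fun i hi => h i (lt_of_lt_of_le hi (le_max_right _ _)))
      (fun i hi => hV i (lt_of_lt_of_le hi (le_max_right _ _)))]
  | all t φ ih =>
    intro v v' V V' h hV
    simp only [TS.Sat]
    rw [tm_congr M t (fun i hi => h i (lt_of_lt_of_le hi (le_max_left _ _)))
      (fun i hi => hV i (lt_of_lt_of_le hi (le_max_left _ _)))]
    refine forall_congr' (fun x => imp_congr_right (fun _ => ih ?_ ?_))
    · intro i hi
      cases i with
      | zero => rfl
      | succ i =>
        exact h i (lt_of_lt_of_le (by omega : i < φ.bd) (le_max_right _ _))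
    · exact fun i hi => hV i (lt_of_lt_of_le hi (le_max_right _ _))

/-- code of the first `n` values of an assignment -/
def pk : ℕ → (ℕ → ℕ) → ℕ
  | 0, _ => 0
  | n + 1, v => Nat.pair (v 0) (pk n (fun i => v (i + 1)))

/-- decoding -/
def upk : ℕ → ℕ → ℕ
  | c, 0 => c.unpair.1
  | c, j + 1 => upk c.unpair.2 j

theorem upk_pk (n : ℕ) : ∀ (v : ℕ → ℕ) (j : ℕ), j < n → upk (pk n v) j = v j := by
  induction n with
  | zero => intro v j hj; omega
  | succ n ih =>
    intro v j hj
    cases j with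
    | zero => simp [pk, upk]
    | succ j =>
      simp only [pk, upk, Nat.unpair_pair]
      exact ih _ j (by omega)

/-- the number with the binary digits given by `P` below `b` -/
noncomputable def bset (P : ℕ → Prop) : ℕ → ℕ
  | 0 => 0
  | b + 1 => if P b then bset P b ||| 2 ^ b else bset P b

theorem testBit_bset (P : ℕ → Prop) (b z : ℕ) : (bset P b).testBit z = true ↔ z < b ∧ P z := by
  induction b with
  | zero => simp [bset]
  | succ b ih =>
    unfold bset
    split_ifs with h
    · rw [Nat.testBit_or, Bool.or_eq_true, ih, Nat.testBit_two_pow, decide_eq_true_eq]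
      constructor
      · rintro (h1 | h1)
        · exact ⟨by omega, h1.2⟩
        · subst h1; exact ⟨by omega, h⟩
      · rintro ⟨h1, h2⟩
        by_cases h3 : z = b
        · exact Or.inr h3.symm
        · exact Or.inl ⟨by omega, h2⟩
    · rw [ih]
      constructor
      · rintro ⟨h1, h2⟩
        exact ⟨by omega, h2⟩
      · rintro ⟨h1, h2⟩
        refine ⟨?_, h2⟩
        by_contra h3
        have : z = b := by omega
        subst this
        exact h h2

theorem bset_lt (P : ℕ → Prop) (b : ℕ) : bset P b < 2 ^ b := by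
  refine Nat.lt_pow_two_of_testBit _ (fun i hi => ?_)
  by_contra h
  rw [Bool.not_eq_false, testBit_bset] at h
  omega

/-- values of terms in the standard model -/
def tmN (v V : ℕ → ℕ) (t : NTm) : ℕ := NN.tm v V t

/-- satisfaction in the standard model -/
def SatN (V v : ℕ → ℕ) (φ : Fm) : Prop := NN.Sat V v φ

theorem tmN_congr {v v' V V' : ℕ → ℕ} (t : NTm)
    (h : ∀ i < t.bd, v i = v' i) (hV : ∀ i < t.bd, V i = V' i) :
    tmN v V t = tmN v' V' t := tm_congr NN t h hV

theorem satN_congr (φ : Fm) {v v' V V' : ℕ → ℕ}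
    (h : ∀ i < φ.bd, v i = v' i) (hV : ∀ i < φ.bd, V i = V' i) :
    SatN V v φ ↔ SatN V' v' φ := sat_congr NN φ h hV

theorem satN_all (V v : ℕ → ℕ) (t : NTm) (φ : Fm) :
    SatN V v (.all t φ) ↔ ∀ x : ℕ, x ≤ tmN v V t → SatN V (cons x v) φ := Iff.rfl

/-- Skolem function of a formula: input `pair (code of v) (code of V)` -/
noncomputable def skf (t : NTm) (φ : Fm) (c : ℕ) : ℕ :=
  if h : ∃ z : ℕ, z ≤ tmN (upk c.unpair.1) (upk c.unpair.2) t ∧
    ¬ SatN (upk c.unpair.2) (cons z (upk c.unpair.1)) φ then h.choose else 0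

/-- comprehension function of a formula: input `pair y (pair (code of v) (code of V))` -/
noncomputable def cmf (φ : Fm) (c : ℕ) : ℕ :=
  bset (fun z => SatN (upk c.unpair.2.unpair.2) (cons z (upk c.unpair.2.unpair.1)) φ) c.unpair.1

/-- Cook–Nguyen pairing in the standard model -/
def prN (x y : ℕ) : ℕ := (x + y) * ((x + y) + 1) + (1 + 1) * y

/-- the number of elements of `X` below `u` -/
noncomputable def ones (X u : ℕ) : ℕ := ((Finset.range u).filter (fun z => X.testBit z = true)).card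

/-- counting table: input `pair X y` -/
noncomputable def numf (c : ℕ) : ℕ :=
  bset (fun z => ∃ u ≤ c.unpair.2, z = prN u (ones c.unpair.1 u))
    (prN c.unpair.2 c.unpair.2 + 1)

/-- multiplication table: input `pair X Y` -/
noncomputable def tabf (c : ℕ) : ℕ :=
  bset (fun z => ∃ i ≤ c.unpair.1.size, ∃ j ≤ c.unpair.1.size + c.unpair.2.size,
    z = prN i j ∧ ((c.unpair.1 % 2 ^ i) * c.unpair.2).testBit j = true)
    (prN (c.unpair.1.size + c.unpair.2.size) (c.unpair.1.size + c.unpair.2.size) + 1)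

/-- the basic functions -/
def basic : Set (ℕ → ℕ) :=
  ({(fun _ => 0), (fun n => n.unpair.1 + n.unpair.2), (fun n => n.unpair.1 * n.unpair.2),
    (fun n => n.unpair.1 - n.unpair.2), Nat.size, numf, tabf} ∪
    Set.range (fun p : NTm × Fm => skf p.1 p.2)) ∪ Set.range cmf

theorem basic_countable : basic.Countable := by
  unfold basic
  have h1 : Countable (NTm × Fm) := inferInstance
  have h2 : Countable Fm := inferInstance
  exact ((Set.toFinite _).countable.union (Set.countable_range _)).union (Set.countable_range _)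

/-- the data from which the model is built -/
structure Ctx where
  S : Set (ℕ → ℕ)
  G : Set U
  hS : Closed S
  hb : basic ⊆ S
  hom : om ∈ G

namespace Ctx

variable (C : Ctx)

/-- membership in the hull -/
def H (x : U) : Prop := Hull C.S C.G x

/-- `ω ^ n` -/
noncomputable def pw (n : ℕ) : U := ((fun i => i ^ n : ℕ → ℕ) : U)

/-- `2 ^ (ω ^ n)` -/
noncomputable def tp (n : ℕ) : U := ((fun i => 2 ^ (i ^ n) : ℕ → ℕ) : U)

theorem H_map {f : ℕ → ℕ} (hf : f ∈ C.S) {x : ℕ → ℕ} (hx : C.H (x : U)) :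
    C.H ((fun i => f (x i) : ℕ → ℕ) : U) := Hull.map _ _ hf hx

theorem H_pair {x y : ℕ → ℕ} (hx : C.H (x : U)) (hy : C.H (y : U)) :
    C.H ((fun i => Nat.pair (x i) (y i) : ℕ → ℕ) : U) := Hull.pair _ _ hx hy

theorem H_om : C.H om := .base _ C.hom

theorem H_zero : C.H ((fun _ => 0 : ℕ → ℕ) : U) :=
  Hull.map (fun _ => 0) om (C.hb (by simp [basic])) C.H_om

theorem H_one : C.H ((fun _ => 1 : ℕ → ℕ) : U) :=
  Hull.map (fun _ => 1) om C.hS.one C.H_om

theorem H_add {x y : ℕ → ℕ} (hx : C.H (x : U)) (hy : C.H (y : U)) :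
    C.H ((fun i => x i + y i : ℕ → ℕ) : U) := by
  have := C.H_map (f := fun n => n.unpair.1 + n.unpair.2) (C.hb (by simp [basic]))
    (C.H_pair hx hy)
  simpa using this

theorem H_mul {x y : ℕ → ℕ} (hx : C.H (x : U)) (hy : C.H (y : U)) :
    C.H ((fun i => x i * y i : ℕ → ℕ) : U) := by
  have := C.H_map (f := fun n => n.unpair.1 * n.unpair.2) (C.hb (by simp [basic]))
    (C.H_pair hx hy)
  simpa using this

theorem H_sub {x y : ℕ → ℕ} (hx : C.H (x : U)) (hy : C.H (y : U)) :
    C.H ((fun i => x i - y i : ℕ → ℕ) : U) := by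
  have := C.H_map (f := fun n => n.unpair.1 - n.unpair.2) (C.hb (by simp [basic]))
    (C.H_pair hx hy)
  simpa using this

theorem H_size {x : ℕ → ℕ} (hx : C.H (x : U)) :
    C.H ((fun i => (x i).size : ℕ → ℕ) : U) :=
  C.H_map (f := Nat.size) (C.hb (by simp [basic])) hx

/-- numbers -/
def IsNum (x : U) : Prop := C.H x ∧ ∃ n : ℕ, x ≤ pw n

/-- strings -/
def IsStr (x : U) : Prop := C.H x ∧ ∃ n : ℕ, x < tp n

theorem isNum_iff (x : ℕ → ℕ) : C.IsNum (x : U) ↔
    C.H (x : U) ∧ ∃ n : ℕ, ∀ᶠ i in (UU : Filter ℕ), x i ≤ i ^ n := Iff.rfl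

theorem isStr_iff (x : ℕ → ℕ) : C.IsStr (x : U) ↔
    C.H (x : U) ∧ ∃ n : ℕ, ∀ᶠ i in (UU : Filter ℕ), x i < 2 ^ (i ^ n) := by
  unfold IsStr tp
  simp only [Germ.coe_lt]

theorem isNum_le {x y : ℕ → ℕ} (hx : C.H (x : U)) (hy : C.IsNum (y : U))
    (h : ∀ᶠ i in (UU : Filter ℕ), x i ≤ y i) : C.IsNum (x : U) := by
  rw [isNum_iff] at hy ⊢
  obtain ⟨h1, n, h2⟩ := hy
  refine ⟨hx, n, ?_⟩
  filter_upwards [h, h2] with i h3 h4 using h3.trans h4

theorem isNum_zero : C.IsNum ((fun _ => 0 : ℕ → ℕ) : U) := by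
  rw [isNum_iff]
  exact ⟨C.H_zero, 0, Eventually.of_forall (fun i => Nat.zero_le _)⟩

theorem isNum_one : C.IsNum ((fun _ => 1 : ℕ → ℕ) : U) := by
  rw [isNum_iff]
  exact ⟨C.H_one, 0, Eventually.of_forall (fun i => by simp)⟩

theorem isNum_add {x y : ℕ → ℕ} (hx : C.IsNum (x : U)) (hy : C.IsNum (y : U)) :
    C.IsNum ((fun i => x i + y i : ℕ → ℕ) : U) := by
  rw [isNum_iff] at hx hy ⊢
  obtain ⟨h1, n, h2⟩ := hx
  obtain ⟨h3, m, h4⟩ := hy
  refine ⟨C.H_add h1 h3, max n m + 1, ?_⟩
  filter_upwards [h2, h4, ev_ge (P := fun i => 2 ≤ i) 2 (fun i hi => hi)] with i h5 h6 h7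
  have h8 : i ^ n ≤ i ^ (max n m) := Nat.pow_le_pow_right (by omega) (le_max_left _ _)
  have h9 : i ^ m ≤ i ^ (max n m) := Nat.pow_le_pow_right (by omega) (le_max_right _ _)
  have h10 : i ^ (max n m) * 2 ≤ i ^ (max n m) * i := Nat.mul_le_mul_left _ h7
  rw [pow_succ]
  omega

theorem isNum_mul {x y : ℕ → ℕ} (hx : C.IsNum (x : U)) (hy : C.IsNum (y : U)) :
    C.IsNum ((fun i => x i * y i : ℕ → ℕ) : U) := by
  rw [isNum_iff] at hx hy ⊢
  obtain ⟨h1, n, h2⟩ := hx
  obtain ⟨h3, m, h4⟩ := hy
  refine ⟨C.H_mul h1 h3, n + m, ?_⟩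
  filter_upwards [h2, h4] with i h5 h6
  rw [pow_add]
  exact Nat.mul_le_mul h5 h6

theorem isNum_size {x : ℕ → ℕ} (hx : C.IsStr (x : U)) :
    C.IsNum ((fun i => (x i).size : ℕ → ℕ) : U) := by
  rw [isNum_iff]
  rw [isStr_iff] at hx
  obtain ⟨h1, n, h2⟩ := hx
  refine ⟨C.H_size h1, n, ?_⟩
  filter_upwards [h2] with i h3
  exact Nat.size_le.2 h3

/-- a bound by a number gives a string -/
theorem isStr_of {x y : ℕ → ℕ} (hx : C.H (x : U)) (hy : C.IsNum (y : U))
    (h : ∀ᶠ i in (UU : Filter ℕ), x i < 2 ^ (y i)) : C.IsStr (x : U) := by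
  rw [isStr_iff]
  rw [isNum_iff] at hy
  obtain ⟨h1, n, h2⟩ := hy
  refine ⟨hx, n, ?_⟩
  filter_upwards [h, h2] with i h3 h4
  exact h3.trans_le (Nat.pow_le_pow_right (by norm_num) h4)

/-- numbers of the model -/
structure Num where
  v : U
  h : C.IsNum v

/-- strings of the model -/
structure Str where
  v : U
  h : C.IsStr v

variable {C}

/-- the number given by a function -/
noncomputable def mkN (x : ℕ → ℕ) (h : C.IsNum (x : U)) : C.Num := ⟨(x : U), h⟩

/-- the string given by a function -/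
noncomputable def mkS (x : ℕ → ℕ) (h : C.IsStr (x : U)) : C.Str := ⟨(x : U), h⟩

/-- a representative of a number -/
noncomputable def rn (x : C.Num) : ℕ → ℕ := rep x.v

/-- a representative of a string -/
noncomputable def rs (x : C.Str) : ℕ → ℕ := rep x.v

theorem rn_spec (x : C.Num) : ((rn x : ℕ → ℕ) : U) = x.v := rep_coe x.v

theorem rs_spec (x : C.Str) : ((rs x : ℕ → ℕ) : U) = x.v := rep_coe x.v

theorem rn_num (x : C.Num) : C.IsNum ((rn x : ℕ → ℕ) : U) := by rw [rn_spec]; exact x.h

theorem rs_str (x : C.Str) : C.IsStr ((rs x : ℕ → ℕ) : U) := by rw [rs_spec]; exact x.h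

theorem rn_mk (x : ℕ → ℕ) (h : C.IsNum (x : U)) :
    ∀ᶠ i in (UU : Filter ℕ), rn (mkN x h) i = x i := by
  have := rn_spec (mkN x h)
  exact Germ.coe_eq.1 this

theorem rs_mk (x : ℕ → ℕ) (h : C.IsStr (x : U)) :
    ∀ᶠ i in (UU : Filter ℕ), rs (mkS x h) i = x i := by
  have := rs_spec (mkS x h)
  exact Germ.coe_eq.1 this

theorem eqN_iff (x y : C.Num) :
    x = y ↔ ∀ᶠ i in (UU : Filter ℕ), rn x i = rn y i := by
  have h1 : x = y ↔ x.v = y.v := by
    constructor
    · rintro rfl; rfl
    · intro h; cases x; cases y; simp only at h; subst h; rfl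
  rw [h1, ← rn_spec x, ← rn_spec y, Germ.coe_eq]
  rfl

theorem eqS_iff (x y : C.Str) :
    x = y ↔ ∀ᶠ i in (UU : Filter ℕ), rs x i = rs y i := by
  have h1 : x = y ↔ x.v = y.v := by
    constructor
    · rintro rfl; rfl
    · intro h; cases x; cases y; simp only at h; subst h; rfl
  rw [h1, ← rs_spec x, ← rs_spec y, Germ.coe_eq]
  rfl

variable (C)

/-- the model -/
noncomputable def M : TS where
  Num := C.Num
  Str := C.Str
  zero := mkN _ C.isNum_zero
  one := mkN _ C.isNum_one
  add := fun x y => mkN _ (C.isNum_add (rn_num x) (rn_num y))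
  mul := fun x y => mkN _ (C.isNum_mul (rn_num x) (rn_num y))
  le := fun x y => ∀ᶠ i in (UU : Filter ℕ), rn x i ≤ rn y i
  len := fun x => mkN _ (C.isNum_size (rs_str x))
  mem := fun x X => ∀ᶠ i in (UU : Filter ℕ), (rs X i).testBit (rn x i) = true

variable {C}

/-- order of the model -/
def leM (x y : C.Num) : Prop := C.M.le x y

/-- strict order of the model -/
def ltM (x y : C.Num) : Prop := C.M.lt x y

/-- membership of the model -/
def memM (x : C.Num) (X : C.Str) : Prop := C.M.mem x X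

/-- length of the model -/
noncomputable def lenM (X : C.Str) : C.Num := C.M.len X

/-- sum of the model -/
noncomputable def addM (x y : C.Num) : C.Num := C.M.add x y

/-- product of the model -/
noncomputable def mulM (x y : C.Num) : C.Num := C.M.mul x y

variable (C)

/-- one -/
noncomputable def oneM : C.Num := C.M.one

/-- zero -/
noncomputable def zeroM : C.Num := C.M.zero

variable {C}

theorem leM_iff (x y : C.Num) : leM x y ↔ ∀ᶠ i in (UU : Filter ℕ), rn x i ≤ rn y i := Iff.rfl

theorem memM_iff (x : C.Num) (X : C.Str) :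
    memM x X ↔ ∀ᶠ i in (UU : Filter ℕ), (rs X i).testBit (rn x i) = true := Iff.rfl

theorem ltM_iff (x y : C.Num) : ltM x y ↔ ∀ᶠ i in (UU : Filter ℕ), rn x i < rn y i := by
  have h : ltM x y ↔ leM x y ∧ ¬ x = y := Iff.rfl
  rw [h, leM_iff, eqN_iff, ← Ultrafilter.eventually_not, ← eventually_and]
  refine eventually_congr (Eventually.of_forall (fun i => ?_))
  constructor
  · rintro ⟨h1, h2⟩; omega
  · intro h1; omega

theorem rn_addM (x y : C.Num) :
    ∀ᶠ i in (UU : Filter ℕ), rn (addM x y) i = rn x i + rn y i := rn_mk _ _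

theorem rn_mulM (x y : C.Num) :
    ∀ᶠ i in (UU : Filter ℕ), rn (mulM x y) i = rn x i * rn y i := rn_mk _ _

theorem rn_lenM (X : C.Str) :
    ∀ᶠ i in (UU : Filter ℕ), rn (lenM X) i = (rs X i).size := rn_mk _ _

theorem rn_oneM : ∀ᶠ i in (UU : Filter ℕ), rn C.oneM i = 1 := rn_mk _ _

theorem rn_zeroM : ∀ᶠ i in (UU : Filter ℕ), rn C.zeroM i = 0 := rn_mk _ _

variable (C)

/-- values of terms -/
noncomputable def tmM (v : ℕ → C.Num) (V : ℕ → C.Str) (t : NTm) : C.Num := C.M.tm v V t

/-- satisfaction -/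
noncomputable def SatM (V : ℕ → C.Str) (v : ℕ → C.Num) (φ : Fm) : Prop := C.M.Sat V v φ

/-- the representatives of an assignment at `i` -/
noncomputable def en (v : ℕ → C.Num) (i : ℕ) : ℕ → ℕ := fun j => rn (v j) i

/-- the representatives of an assignment at `i` -/
noncomputable def es (V : ℕ → C.Str) (i : ℕ) : ℕ → ℕ := fun j => rs (V j) i

theorem tm_rn (v : ℕ → C.Num) (V : ℕ → C.Str) (t : NTm) :
    ∀ᶠ i in (UU : Filter ℕ), rn (C.tmM v V t) i = tmN (C.en v i) (C.es V i) t := by
  induction t with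
  | var j => exact Eventually.of_forall (fun i => rfl)
  | zero => exact rn_mk _ _
  | one => exact rn_mk _ _
  | add s t ih1 ih2 =>
    filter_upwards [ih1, ih2, rn_mk _ (C.isNum_add (rn_num (C.tmM v V s))
      (rn_num (C.tmM v V t)))] with i h1 h2 h3
    refine h3.trans ?_
    rw [h1, h2]
    rfl
  | mul s t ih1 ih2 =>
    filter_upwards [ih1, ih2, rn_mk _ (C.isNum_mul (rn_num (C.tmM v V s))
      (rn_num (C.tmM v V t)))] with i h1 h2 h3
    refine h3.trans ?_
    rw [h1, h2]
    rfl
  | len j => exact rn_mk _ _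

theorem H_pk (n : ℕ) : ∀ (v : ℕ → ℕ → ℕ), (∀ j, C.H ((v j : ℕ → ℕ) : U)) →
    C.H ((fun i => pk n (fun j => v j i) : ℕ → ℕ) : U) := by
  induction n with
  | zero => intro v hv; exact C.H_zero
  | succ n ih =>
    intro v hv
    exact C.H_pair (hv 0) (ih (fun j => v (j + 1)) (fun j => hv (j + 1)))

/-- code of an assignment -/
noncomputable def code (N : ℕ) (v : ℕ → C.Num) (V : ℕ → C.Str) (i : ℕ) : ℕ :=
  Nat.pair (pk N (C.en v i)) (pk N (C.es V i))

theorem H_code (N : ℕ) (v : ℕ → C.Num) (V : ℕ → C.Str) : C.H ((C.code N v V : ℕ → ℕ) : U) :=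
  C.H_pair (C.H_pk N (fun j => rn (v j)) (fun j => (rn_num (v j)).1))
    (C.H_pk N (fun j => rs (V j)) (fun j => (rs_str (V j)).1))

theorem code1 (N : ℕ) (v : ℕ → C.Num) (V : ℕ → C.Str) (i j : ℕ) (hj : j < N) :
    upk (C.code N v V i).unpair.1 j = C.en v i j := by
  simp only [code, Nat.unpair_pair]
  exact upk_pk N _ j hj

theorem code2 (N : ℕ) (v : ℕ → C.Num) (V : ℕ → C.Str) (i j : ℕ) (hj : j < N) :
    upk (C.code N v V i).unpair.2 j = C.es V i j := by
  simp only [code, Nat.unpair_pair]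
  exact upk_pk N _ j hj

theorem sat_code {N : ℕ} {φ : Fm} (hN : φ.bd ≤ N) (v : ℕ → C.Num) (V : ℕ → C.Str) (i z : ℕ) :
    SatN (upk (C.code N v V i).unpair.2) (cons z (upk (C.code N v V i).unpair.1)) φ ↔
      SatN (C.es V i) (cons z (C.en v i)) φ := by
  refine satN_congr φ (fun j hj => ?_) (fun j hj => C.code2 N v V i j (lt_of_lt_of_le hj hN))
  cases j with
  | zero => rfl
  | succ j => exact C.code1 N v V i j (by omega)

theorem en_cons (x : C.Num) (v : ℕ → C.Num) (i : ℕ) :
    C.en (cons x v) i = cons (rn x i) (C.en v i) := by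
  funext j
  cases j <;> rfl

/-- the transfer theorem -/
theorem transfer (φ : Fm) : ∀ (V : ℕ → C.Str) (v : ℕ → C.Num),
    C.SatM V v φ ↔ ∀ᶠ i in (UU : Filter ℕ), SatN (C.es V i) (C.en v i) φ := by
  induction φ with
  | eq s t =>
    intro V v
    have h0 : C.SatM V v (.eq s t) ↔ C.tmM v V s = C.tmM v V t := Iff.rfl
    rw [h0, eqN_iff]
    refine eventually_congr ?_
    filter_upwards [C.tm_rn v V s, C.tm_rn v V t] with i h1 h2
    rw [h1, h2]
    rfl
  | le s t =>
    intro V v
    have h0 : C.SatM V v (.le s t) ↔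
      ∀ᶠ i in (UU : Filter ℕ), rn (C.tmM v V s) i ≤ rn (C.tmM v V t) i := Iff.rfl
    rw [h0]
    refine eventually_congr ?_
    filter_upwards [C.tm_rn v V s, C.tm_rn v V t] with i h1 h2
    rw [h1, h2]
    rfl
  | mem t j =>
    intro V v
    have h0 : C.SatM V v (.mem t j) ↔
      ∀ᶠ i in (UU : Filter ℕ), (rs (V j) i).testBit (rn (C.tmM v V t) i) = true := Iff.rfl
    rw [h0]
    refine eventually_congr ?_
    filter_upwards [C.tm_rn v V t] with i h1
    rw [h1]
    rfl
  | seq j k =>
    intro V v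
    have h0 : C.SatM V v (.seq j k) ↔ V j = V k := Iff.rfl
    rw [h0, eqS_iff]
    rfl
  | neg φ ih =>
    intro V v
    have h0 : C.SatM V v (.neg φ) ↔ ¬ C.SatM V v φ := Iff.rfl
    rw [h0, ih, ← Ultrafilter.eventually_not]
    rfl
  | and φ ψ ih1 ih2 =>
    intro V v
    have h0 : C.SatM V v (.and φ ψ) ↔ C.SatM V v φ ∧ C.SatM V v ψ := Iff.rfl
    rw [h0, ih1, ih2, ← eventually_and]
    rfl
  | all t φ ih =>
    intro V v
    have h0 : C.SatM V v (.all t φ) ↔ ∀ x : C.Num,
      (∀ᶠ i in (UU : Filter ℕ), rn x i ≤ rn (C.tmM v V t) i) → C.SatM V (cons x v) φ := Iff.rfl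
    rw [h0]
    constructor
    · intro h
      by_contra hcon
      rw [← Ultrafilter.eventually_not] at hcon
      set N := max t.bd φ.bd with hN
      have hskS : skf t φ ∈ C.S := C.hb (Or.inl (Or.inr ⟨(t, φ), rfl⟩))
      set w : ℕ → ℕ := fun i => skf t φ (C.code N v V i) with hw
      have hwH : C.H (w : U) := C.H_map hskS (C.H_code N v V)
      have key : ∀ᶠ i in (UU : Filter ℕ),
          w i ≤ tmN (C.en v i) (C.es V i) t ∧
          ¬ SatN (C.es V i) (cons (w i) (C.en v i)) φ := by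
        filter_upwards [hcon] with i hi
        rw [satN_all] at hi
        push Not at hi
        obtain ⟨z, hz1, hz2⟩ := hi
        have et : tmN (upk (C.code N v V i).unpair.1) (upk (C.code N v V i).unpair.2) t =
            tmN (C.en v i) (C.es V i) t :=
          tmN_congr t (fun j hj => C.code1 N v V i j (lt_of_lt_of_le hj (le_max_left _ _)))
            (fun j hj => C.code2 N v V i j (lt_of_lt_of_le hj (le_max_left _ _)))
        have es' := C.sat_code (le_max_right t.bd φ.bd) v V i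
        have hex : ∃ z : ℕ, z ≤ tmN (upk (C.code N v V i).unpair.1)
            (upk (C.code N v V i).unpair.2) t ∧
            ¬ SatN (upk (C.code N v V i).unpair.2) (cons z (upk (C.code N v V i).unpair.1)) φ :=
          ⟨z, by rw [et]; exact hz1, by rw [es']; exact hz2⟩
        have hwi : w i = hex.choose := by
          simp only [hw, skf]
          rw [dif_pos hex]
        have h1 := hex.choose_spec
        rw [← hwi] at h1
        exact ⟨by rw [← et]; exact h1.1, by rw [← es']; exact h1.2⟩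
      have hwN : C.IsNum (w : U) := by
        refine C.isNum_le hwH (rn_num (C.tmM v V t)) ?_
        filter_upwards [key, C.tm_rn v V t] with i h1 h2
        rw [h2]
        exact h1.1
      have h1 := h (mkN w hwN) (by
        filter_upwards [key, C.tm_rn v V t, rn_mk w hwN] with i h1 h2 h3
        rw [h2, h3]
        exact h1.1)
      rw [ih] at h1
      obtain ⟨i, hi1, hi2, hi3⟩ := (h1.and (key.and (rn_mk w hwN))).exists
      apply hi2.2
      rw [en_cons, hi3] at hi1
      exact hi1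
    · intro h x hx
      rw [ih]
      filter_upwards [h, hx, C.tm_rn v V t] with i h1 h2 h3
      rw [h3] at h2
      rw [en_cons]
      exact (satN_all _ _ _ _).1 h1 (rn x i) h2

end Ctx

end Pool.Agent.H412R3.VTC
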